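import Mathlib
import Pool.Agent.R389.Simple
import Pool.Agent.R389.TwoMain
import Pool.Agent.W446.AS.FMain

/-!
# Sums of monomial characters modulo the monomial characters orthogonal to a Heilbronn function
-/

set_option autoImplicit false
set_option linter.unusedSectionVars false

namespace Pool.Agent.U803.DT

open Pool.Agent.H302R2 Pool.Agent.H302R3 Pool.Agent.H302R5 Pool.Agent.H302R6
open Pool.Agent.H541R3.ART Pool.Agent.W446.AS Pool.Agent.R389

variable {G : Type} [Group G] [Finite G] {θ : G → ℂ}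

lemma heil_ha (h : IsHeilbronn θ) : HA θ where
  conj := h.conj
  nat U ψ := by
    classical
    have : Fintype U := Fintype.ofFinite U
    obtain ⟨n, hn⟩ := h.mult U ψ
    refine ⟨n, ?_⟩
    rw [frob' U _ h.conj, pr_eq]
    rw [finsum_eq_sum_of_fintype] at hn
    have h1 : ∑ g : U, θ g * ((ψ g⁻¹ : ℂˣ) : ℂ) = n * Nat.card U := by
      rw [← hn]
      refine Finset.sum_congr rfl fun x _ => by rw [map_inv]
    change (Nat.card U : ℂ)⁻¹ * ∑ g : U, θ g * ((ψ g⁻¹ : ℂˣ) : ℂ) = n
    have h2 : (Nat.card U : ℂ) ≠ 0 := card_ne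
    rw [h1]
    field_simp

/-- sums of monomial characters, modulo the group generated by the monomial characters which are
orthogonal to `θ` -/
def MG (θ : G → ℂ) : AddSubmonoid (G → ℂ) := MonPA G ⊔ (GoodA θ).toAddSubmonoid

lemma mono_monPA {χ : G → ℂ} (h : Mono χ) : χ ∈ MonPA G := by
  obtain ⟨U, ψ, rfl⟩ := h
  exact AddSubmonoid.subset_closure ⟨U, ψ, rfl⟩

lemma mono_mg {χ : G → ℂ} (h : Mono χ) : χ ∈ MG θ := AddSubmonoid.mem_sup_left (mono_monPA h)

lemma good_mg {f : G → ℂ} (h : f ∈ GoodA θ) : f ∈ MG θ := AddSubmonoid.mem_sup_right h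

lemma mg_ind (hc : ∀ g x : G, θ (x * g * x⁻¹) = θ g) (H : Subgroup G) {f : H → ℂ}
    (hf : f ∈ MG (fun x : H => θ x)) : ind H f ∈ MG θ := by
  obtain ⟨a, ha, s, hs, rfl⟩ := AddSubmonoid.mem_sup.mp hf
  rw [ind_add]
  refine add_mem (AddSubmonoid.mem_sup_left ?_) (good_mg (goodA_ind hc H hs))
  have h1 : MonPA H ≤ (MonPA G).comap (indHom H) := by
    rw [MonPA, AddSubmonoid.closure_le]
    rintro f ⟨U, ψ, rfl⟩
    rw [SetLike.mem_coe, AddSubmonoid.mem_comap, indHom_apply]
    exact mono_monPA (Mono.ind ⟨U, ψ, rfl⟩)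
  exact h1 ha

section infl

variable {Y : Type} [Group Y] [Finite Y] {π : G →* Y}

/-- inflation -/
def inflHom (π : G →* Y) : (Y → ℂ) →+ (G → ℂ) :=
  AddMonoidHom.mk' (fun f g => f (π g)) (fun _ _ => rfl)

lemma inflHom_apply (f : Y → ℂ) : inflHom π f = fun g => f (π g) := rfl

lemma mg_infl [Fintype G] (hπ : Function.Surjective π) {f : Y → ℂ} (hf : f ∈ MG (push π θ)) :
    (fun g => f (π g)) ∈ MG θ := by
  obtain ⟨a, ha, s, hs, rfl⟩ := AddSubmonoid.mem_sup.mp hf
  have h3 : (fun g => (a + s) (π g)) = (fun g => a (π g)) + fun g => s (π g) := rfl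
  rw [h3]
  refine add_mem (AddSubmonoid.mem_sup_left ?_) (good_mg ?_)
  · have h1 : MonPA Y ≤ (MonPA G).comap (inflHom π) := by
      rw [MonPA, AddSubmonoid.closure_le]
      rintro f ⟨U, ψ, rfl⟩
      rw [SetLike.mem_coe, AddSubmonoid.mem_comap, inflHom_apply]
      exact mono_monPA (Mono.comp hπ ⟨U, ψ, rfl⟩)
    exact h1 ha
  · have h1 : GoodA (push π θ) ≤ (GoodA θ).comap (inflHom π) := by
      rw [GoodA, AddSubgroup.closure_le]
      rintro f ⟨U, ψ, rfl, h2⟩
      rw [SetLike.mem_coe, AddSubgroup.mem_comap, inflHom_apply]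
      obtain ⟨W, ν, h4⟩ := Mono.comp hπ (χ := ind U (fun h => ((ψ h : ℂˣ) : ℂ))) ⟨U, ψ, rfl⟩
      refine AddSubgroup.subset_closure ⟨W, ν, h4, ?_⟩
      rw [← pr_push hπ]
      exact h2
    exact h1 hs

end infl

/-- **Sections without small frames.** `S` is a set of exponents. For every section `X` of `G`
(quotient of a subgroup) and every frame of `X` of degree `D`, the number `r` is smaller than `D`
times the number of the residues of `S` modulo the order of the centre of `X`. -/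
def NF (S : Set ℕ) (r : ℕ) (G : Type) [Group G] : Prop :=
  ∀ (H : Subgroup G) (X : Type) [Group X] (f : H →* X), Function.Surjective f →
    ∀ (F : Subgroup X) (D : ℕ), Frame X F D →
      r < D * Set.ncard ((fun k : ℕ => (k : ZMod (Nat.card (Subgroup.center X)))) '' S)

lemma NF.sub {S : Set ℕ} {r : ℕ} {G : Type} [Group G] (h : NF S r G) (K : Subgroup G) :
    NF S r K := by
  intro H X _ f hf
  let e : H.map K.subtype ≃* H := (H.equivMapOfInjective K.subtype K.subtype_injective).symm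
  exact h (H.map K.subtype) X (f.comp e.toMonoidHom) (hf.comp e.surjective)

lemma NF.quot {S : Set ℕ} {r : ℕ} {G : Type} [Group G] (h : NF S r G)
    {Y : Type} [Group Y] (π : G →* Y) (hπ : Function.Surjective π) : NF S r Y := by
  intro H X _ f hf
  let q : H.comap π →* H :=
    { toFun := fun u => ⟨π u, u.2⟩
      map_one' := Subtype.ext (map_one π)
      map_mul' := fun a b => Subtype.ext (map_mul π _ _) }
  refine h (H.comap π) X (f.comp q) (hf.comp ?_)
  rintro ⟨y, hy⟩
  obtain ⟨g, rfl⟩ := hπ y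
  exact ⟨⟨g, hy⟩, rfl⟩

lemma NF.self {S : Set ℕ} {r : ℕ} {G : Type} [Group G] (h : NF S r G) {F : Subgroup G} {D : ℕ}
    (hF : Frame G F D) :
    r < D * Set.ncard ((fun k : ℕ => (k : ZMod (Nat.card (Subgroup.center G)))) '' S) :=
  h ⊤ G (⊤ : Subgroup G).subtype (fun x => ⟨⟨x, Subgroup.mem_top x⟩, rfl⟩) F D hF

/-- the support of `θ` on the monomial characters is stable under the powers with exponents in
`S` -/
def Supp (S : Set ℕ) (θ : G → ℂ) : Prop :=
  ∀ k ∈ S, ∀ (U : Subgroup G) (ψ : U →* ℂˣ), pr θ (ind U (lc ψ)) ≠ 0 →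
    pr θ (ind U (lc (ψ ^ k))) ≠ 0

lemma supp_one : Supp {1} θ := by
  intro k hk U ψ hψ
  have h1 : ψ ^ k = ψ := by
    rw [Set.mem_singleton_iff.mp hk]
    ext u
    rw [MonoidHom.pow_apply, pow_one]
  rw [h1]
  exact hψ

lemma Supp.res {S : Set ℕ} (hc : ∀ g x : G, θ (x * g * x⁻¹) = θ g) (h : Supp S θ)
    (H : Subgroup G) : Supp S (fun x : H => θ x) := by
  intro k hk U ψ hψ
  let e := (U.equivMapOfInjective H.subtype H.subtype_injective).symm.toMonoidHom
  have h1 : ∀ φ : U →* ℂˣ, pr (fun x : H => θ x) (ind U (lc φ))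
      = pr θ (ind (U.map H.subtype) (lc (φ.comp e))) := by
    intro φ
    rw [← frob' H _ hc, ind_ind]
    rfl
  rw [h1] at hψ ⊢
  exact h k hk _ (ψ.comp e) hψ

lemma Supp.push {S : Set ℕ} [Fintype G] (h : Supp S θ) {Y : Type} [Group Y] [Finite Y]
    {π : G →* Y} (hπ : Function.Surjective π) : Supp S (push π θ) := by
  intro k hk U ψ hψ
  let π' : U.comap π →* U :=
    { toFun := fun h => ⟨π h, h.2⟩
      map_one' := by apply Subtype.ext; simp
      map_mul' := by intro a b; apply Subtype.ext; simp }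
  have h1 : ∀ φ : U →* ℂˣ, pr (Pool.Agent.H302R5.push π θ) (ind U (lc φ))
      = pr θ (ind (U.comap π) (lc (φ.comp π'))) := by
    intro φ
    rw [pr_push hπ, ind_comap hπ]
    rfl
  rw [h1] at hψ ⊢
  exact h k hk _ (ψ.comp π') hψ

end Pool.Agent.U803.DT
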