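import Mathlib
import Pool.Agent.W446.AS.Cyc
import Pool.Agent.W446.AS.Mob

/-!
# Irreducible groups of odd order of automorphisms of a group of order `p ^ 2`
-/

set_option autoImplicit false
set_option linter.unusedSectionVars false

namespace Pool.Agent.U803.DT

open Pool.Agent.W446.AS
open scoped Pointwise

section lines

variable {M : Type} [CommGroup M] [Finite M] {p : ℕ} {K₁ K₂ K₃ : Subgroup M}

/-- proper nontrivial subgroups -/
def Line (K : Subgroup M) : Prop := K ≠ ⊥ ∧ K ≠ ⊤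

lemma Line.card (hp : p.Prime) (hcard : Nat.card M = p ^ 2) {K : Subgroup M} (h : Line K) :
    Nat.card K = p := by
  have h1 : Nat.card K ∣ p ^ 2 := hcard ▸ K.card_subgroup_dvd_card
  obtain ⟨i, hi, h2⟩ := (Nat.dvd_prime_pow hp).mp h1
  interval_cases i
  · exact absurd (Subgroup.card_eq_one.mp (by simpa using h2)) h.1
  · simpa using h2
  · exact absurd (Subgroup.eq_top_of_card_eq K (by rw [h2, hcard])) h.2

lemma Line.inf (hp : p.Prime) (hcard : Nat.card M = p ^ 2) (h₁ : Line K₁) (h₂ : Line K₂)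
    (hne : K₁ ≠ K₂) : K₁ ⊓ K₂ = ⊥ := by
  have h1 : Nat.card (K₁ ⊓ K₂ : Subgroup M) ∣ p := by
    rw [← h₁.card hp hcard]
    exact Subgroup.card_dvd_of_le inf_le_left
  rcases (Nat.dvd_prime hp).mp h1 with h2 | h2
  · exact Subgroup.card_eq_one.mp h2
  · exfalso
    apply hne
    have h3 : K₁ ⊓ K₂ = K₁ := Subgroup.eq_of_le_of_card_ge inf_le_left
      (by rw [h2, h₁.card hp hcard])
    have h4 : K₁ ⊓ K₂ = K₂ := Subgroup.eq_of_le_of_card_ge inf_le_right
      (by rw [h2, h₂.card hp hcard])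
    rw [← h3, h4]

lemma Line.sup (hp : p.Prime) (hcard : Nat.card M = p ^ 2) (h₁ : Line K₁) (h₂ : Line K₂)
    (hne : K₁ ≠ K₂) : K₁ ⊔ K₂ = ⊤ := by
  by_contra hcon
  have h3 : Line (K₁ ⊔ K₂) := ⟨fun h => h₁.1 (le_bot_iff.mp (h ▸ le_sup_left)), hcon⟩
  have h4 : K₁ = K₁ ⊔ K₂ := Subgroup.eq_of_le_of_card_ge le_sup_left
    (by rw [h₁.card hp hcard, h3.card hp hcard])
  have h5 : K₂ = K₁ ⊔ K₂ := Subgroup.eq_of_le_of_card_ge le_sup_right
    (by rw [h₂.card hp hcard, h3.card hp hcard])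
  exact hne (h4.trans h5.symm)

lemma Line.gen (hp : p.Prime) (hcard : Nat.card M = p ^ 2) {K : Subgroup M} (h : Line K)
    {u x : M} (hu : u ∈ K) (hu1 : u ≠ 1) (hx : x ∈ K) : ∃ i : ℤ, u ^ i = x := by
  have h1 := h.card hp hcard
  have : Fact p.Prime := ⟨hp⟩
  have h2 : (⟨u, hu⟩ : K) ≠ 1 := fun h => hu1 (congrArg Subtype.val h)
  obtain ⟨i, hi⟩ := mem_zpowers_of_prime_card h1 h2 (g' := (⟨x, hx⟩ : K))
  exact ⟨i, by simpa using congrArg Subtype.val hi⟩

/-- an automorphism with three invariant lines is a power map -/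
lemma three_lines (hp : p.Prime) (hcard : Nat.card M = p ^ 2) (h₁ : Line K₁) (h₂ : Line K₂)
    (h₃ : Line K₃) (h12 : K₁ ≠ K₂) (h13 : K₁ ≠ K₃) (h23 : K₂ ≠ K₃) (β : MulAut M)
    (i₁ : ∀ m ∈ K₁, β m ∈ K₁) (i₂ : ∀ m ∈ K₂, β m ∈ K₂) (i₃ : ∀ m ∈ K₃, β m ∈ K₃) :
    ∃ k : ℤ, ∀ m, β m = m ^ k := by
  obtain ⟨w, hw, hw1⟩ := (Subgroup.ne_bot_iff_exists_ne_one).mp h₃.1 |> fun ⟨a, ha⟩ =>
    (⟨a.1, a.2, fun h => ha (Subtype.ext h)⟩ : ∃ w, w ∈ K₃ ∧ w ≠ 1)
  have hd : ∀ m : M, ∃ x ∈ K₁, ∃ y ∈ K₂, x * y = m := by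
    intro m
    have h1 : m ∈ K₁ ⊔ K₂ := by rw [h₁.sup hp hcard h₂ h12]; exact Subgroup.mem_top m
    exact Subgroup.mem_sup.mp h1
  obtain ⟨u, hu, v, hv, huv⟩ := hd w
  have hbot : ∀ {K K' : Subgroup M}, K ⊓ K' = ⊥ → ∀ z, z ∈ K → z ∈ K' → z = 1 := by
    intro K K' h z hz hz'
    have h1 : z ∈ K ⊓ K' := ⟨hz, hz'⟩
    rw [h, Subgroup.mem_bot] at h1
    exact h1
  have hu1 : u ≠ 1 := by
    rintro rfl
    rw [one_mul] at huv
    exact hw1 (hbot (h₂.inf hp hcard h₃ h23) w (huv ▸ hv) hw)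
  have hv1 : v ≠ 1 := by
    rintro rfl
    rw [mul_one] at huv
    exact hw1 (hbot (h₁.inf hp hcard h₃ h13) w (huv ▸ hu) hw)
  obtain ⟨a, ha⟩ := h₁.gen hp hcard hu hu1 (i₁ u hu)
  obtain ⟨b, hb⟩ := h₂.gen hp hcard hv hv1 (i₂ v hv)
  obtain ⟨c, hc⟩ := h₃.gen hp hcard hw hw1 (i₃ w hw)
  have e1 : u ^ a * v ^ b = u ^ c * v ^ c := by
    rw [ha, hb, ← mul_zpow, huv, hc, ← huv, map_mul]
  have e2 : u ^ a * (u ^ c)⁻¹ = v ^ c * (v ^ b)⁻¹ := by
    have h5 : u ^ a = u ^ c * v ^ c * (v ^ b)⁻¹ := by rw [← e1, mul_inv_cancel_right]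
    rw [h5]
    calc u ^ c * v ^ c * (v ^ b)⁻¹ * (u ^ c)⁻¹ = (u ^ c * (u ^ c)⁻¹) * (v ^ c * (v ^ b)⁻¹) := by
          rw [mul_comm _ (u ^ c)⁻¹, ← mul_assoc, ← mul_assoc, inv_mul_cancel, one_mul,
            mul_inv_cancel, one_mul]
      _ = _ := by rw [mul_inv_cancel, one_mul]
  have e3 : u ^ a * (u ^ c)⁻¹ = 1 := hbot (h₁.inf hp hcard h₂ h12) _
    (mul_mem (zpow_mem hu _) (inv_mem (zpow_mem hu _)))
    (by rw [e2]; exact mul_mem (zpow_mem hv _) (inv_mem (zpow_mem hv _)))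
  have e4 : u ^ a = u ^ c := mul_inv_eq_one.mp e3
  have e5 : v ^ b = v ^ c := by
    rw [e3] at e2
    exact (mul_inv_eq_one.mp e2.symm).symm
  refine ⟨c, fun m => ?_⟩
  obtain ⟨x, hx, y, hy, rfl⟩ := hd m
  obtain ⟨i, rfl⟩ := h₁.gen hp hcard hu hu1 hx
  obtain ⟨j, rfl⟩ := h₂.gen hp hcard hv hv1 hy
  rw [map_mul, map_zpow, map_zpow, ← ha, ← hb, e4, e5, mul_zpow, ← zpow_mul, ← zpow_mul,
    ← zpow_mul, ← zpow_mul, mul_comm c i, mul_comm c j]

/-- irreducible automorphisms -/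
lemma irred_mul {k : ℕ} (hp : p.Prime) (hk : 0 < k) (hcard : Nat.card M = p ^ k)
    (hpM : ∀ m : M, m ^ p = 1) (β : MulAut M)
    (hβ : ∀ K : Subgroup M, (∀ m ∈ K, β m ∈ K) → K = ⊥ ∨ K = ⊤) :
    orderOf β ∣ p ^ k - 1 ∧ ∀ j, 0 < j → j < k → ¬ orderOf β ∣ p ^ j - 1 := by
  classical
  let f : AddMonoid.End (Additive M) := β.toMonoidHom.toAdditive
  have hf : ∀ v : Additive M, f v = Additive.ofMul (β v.toMul) := fun v => rfl
  have hfk : ∀ (k : ℕ) (v : Additive M), (f ^ k) v = Additive.ofMul ((β ^ k) v.toMul) := by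
    intro k
    induction k with
    | zero => intro v; rfl
    | succ k ih =>
      intro v
      rw [pow_succ, pow_succ]
      change (f ^ k) (f v) = _
      rw [ih, MulAut.mul_apply]
      rfl
  have hone : ∀ k : ℕ, f ^ k = 1 ↔ β ^ k = 1 := by
    intro k
    constructor
    · intro h
      ext m
      have h1 := hfk k (Additive.ofMul m)
      rw [h] at h1
      exact h1.symm
    · intro h
      ext v
      rw [hfk, h]
      rfl
  have hinv : ∀ K : AddSubgroup (Additive M), (∀ v ∈ K, f v ∈ K) → K = ⊥ ∨ K = ⊤ := by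
    intro K hK
    let K' : Subgroup M :=
      { carrier := {m | Additive.ofMul m ∈ K}
        mul_mem' := fun {u v} hu hv => K.add_mem hu hv
        one_mem' := K.zero_mem
        inv_mem' := fun {u} hu => K.neg_mem hu }
    rcases hβ K' (fun m hm => hK _ hm) with h | h
    · left
      rw [eq_bot_iff]
      intro v hv
      have h1 : v.toMul ∈ K' := hv
      rw [h] at h1
      exact h1
    · right
      rw [eq_top_iff]
      intro v _
      have h1 : v.toMul ∈ K' := by rw [h]; exact Subgroup.mem_top _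
      exact h1
  have hMnt : Nontrivial M := by
    rw [← Finite.one_lt_card_iff_nontrivial, hcard]
    exact Nat.one_lt_pow (by omega) hp.one_lt
  have hf0 : f ≠ 0 := by
    intro h
    obtain ⟨m, hm⟩ := exists_ne (1 : M)
    have h1 := hf (Additive.ofMul m)
    rw [h] at h1
    have h2 : β m = 1 := h1.symm
    apply hm
    apply β.injective
    rw [h2, map_one]
  obtain ⟨h1, h2⟩ := irred_order (V := Additive M) hp (k := k) hk hcard (by
    intro v
    exact hpM v.toMul) f hinv hf0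
  refine ⟨orderOf_dvd_of_pow_eq_one ((hone _).mp h1), ?_⟩
  intro j hj hj2 hdvd
  exact h2 j hj hj2 ((hone _).mpr (orderOf_dvd_iff_pow_eq_one.mp hdvd))

end lines

/-- orbits of groups of odd order do not have two elements -/
lemma odd_orbit {Γ Ω : Type} [Group Γ] [Finite Γ] [MulAction Γ Ω] (hodd : Odd (Nat.card Γ))
    {x : Ω} {g : Γ} (hg : g • x ≠ x) : ∃ h : Γ, h • x ≠ x ∧ h • x ≠ g • x := by
  classical
  by_contra hcon
  push Not at hcon
  have h1 : MulAction.orbit Γ x = {x, g • x} := by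
    ext y
    rw [MulAction.mem_orbit_iff, Set.mem_insert_iff, Set.mem_singleton_iff]
    constructor
    · rintro ⟨h, rfl⟩
      by_cases hx : h • x = x
      · exact Or.inl hx
      · exact Or.inr (hcon h hx)
    · rintro (rfl | rfl)
      · exact ⟨1, one_smul _ _⟩
      · exact ⟨g, rfl⟩
  have h2 : (MulAction.orbit Γ x).ncard = 2 := by
    rw [h1]
    exact Set.ncard_pair (Ne.symm hg)
  have h3 : (MulAction.orbit Γ x).ncard ∣ Nat.card Γ := by
    rw [← MulAction.index_stabilizer Γ x]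
    exact Subgroup.index_dvd_card _
  rw [h2] at h3
  exact (Nat.not_even_iff_odd.mpr hodd) (even_iff_two_dvd.mpr h3)

/-- **Irreducible groups of odd order in dimension two.** -/
theorem odd_irred {M : Type} [CommGroup M] [Finite M] {p : ℕ} (hp : p.Prime)
    (hcard : Nat.card M = p ^ 2) (hpM : ∀ m : M, m ^ p = 1) {B : Type} [Group B] [Finite B]
    [Group.IsSolvable B] (ι : B →* MulAut M)
    (hodd : Odd (Nat.card B))
    (hirr : ∀ K : Subgroup M, (∀ b : B, ∀ m ∈ K, ι b m ∈ K) → K = ⊥ ∨ K = ⊤)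
    (hscal : ∀ b : B, (∃ k : ℤ, ∀ m, ι b m = m ^ k) → b = 1) :
    ∃ b : B, ∃ q : ℕ, q.Prime ∧ q ∣ orderOf (ι b) ∧ q ∣ p + 1 := by
  classical
  -- lines exist
  obtain ⟨m₀, hm₀, hline₀⟩ : ∃ m : M, m ≠ 1 ∧ Line (Subgroup.zpowers m) := by
    have hMnt : Nontrivial M := by
      rw [← Finite.one_lt_card_iff_nontrivial, hcard]
      exact Nat.one_lt_pow (by norm_num) hp.one_lt
    obtain ⟨m, hm⟩ := exists_ne (1 : M)
    refine ⟨m, hm, fun h => hm (Subgroup.zpowers_eq_bot.mp h), fun h => ?_⟩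
    have h5 : Nat.card M = orderOf m := by
      rw [← Nat.card_zpowers, h]
      exact (Nat.card_congr Subgroup.topEquiv.toEquiv).symm
    have h6 : orderOf m ≤ p := Nat.le_of_dvd hp.pos (orderOf_dvd_of_pow_eq_one (hpM m))
    rw [← h5, hcard] at h6
    have h7 : p ^ 1 < p ^ 2 := Nat.pow_lt_pow_right hp.one_lt (by norm_num)
    rw [pow_one] at h7
    omega
  have hBnt : Nontrivial B := by
    by_contra hcon
    rw [not_nontrivial_iff_subsingleton] at hcon
    rcases hirr (Subgroup.zpowers m₀) (by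
      intro b m hm
      rw [Subsingleton.elim b 1, map_one, MulAut.one_apply]
      exact hm) with h | h
    · exact hline₀.1 h
    · exact hline₀.2 h
  obtain ⟨A, -, hAn, hA0, -, hAc, -, -⟩ := exists_min_normal B
  -- the action on the subgroups
  let act : MulAction B (Subgroup M) :=
    { smul := fun b K => K.map (ι b).toMonoidHom
      one_smul := by
        intro K
        change K.map (ι 1).toMonoidHom = K
        rw [map_one]
        ext m
        simp [Subgroup.mem_map]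
      mul_smul := by
        intro b b' K
        change K.map (ι (b * b')).toMonoidHom = (K.map (ι b').toMonoidHom).map (ι b).toMonoidHom
        rw [Subgroup.map_map, map_mul]
        rfl }
  have hsm : ∀ (b : B) (K : Subgroup M) (m : M), m ∈ b • K ↔ (ι b)⁻¹ m ∈ K := by
    intro b K m
    change m ∈ K.map (ι b).toMonoidHom ↔ _
    rw [Subgroup.mem_map]
    constructor
    · rintro ⟨x, hx, rfl⟩
      change (ι b)⁻¹ (ι b x) ∈ K
      rw [MulAut.inv_apply_self]
      exact hx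
    · intro h
      exact ⟨_, h, MulAut.apply_inv_self M (ι b) m⟩
  have hlin : ∀ (b : B) (K : Subgroup M), Line K → Line (b • K) := by
    intro b K hK
    constructor
    · intro h
      apply hK.1
      rw [← inv_smul_smul b K, h, eq_bot_iff]
      intro m hm
      rw [hsm, Subgroup.mem_bot] at hm
      rw [Subgroup.mem_bot]
      exact (ι b⁻¹)⁻¹.injective (hm.trans (map_one _).symm)
    · intro h
      apply hK.2
      rw [← inv_smul_smul b K, h, eq_top_iff]
      intro m _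
      rw [hsm]
      exact Subgroup.mem_top _
  have hne : ∀ (b : B) (K : Subgroup M), (∀ m ∈ K, ι b m ∈ K) → b • K = K := by
    intro b K h
    have h1 : b • K ≤ K := by
      intro m hm
      rw [hsm] at hm
      have h2 := h _ hm
      rwa [MulAut.apply_inv_self] at h2
    refine Subgroup.eq_of_le_of_card_ge h1 ?_
    have h2 : Nat.card (K.map (ι b).toMonoidHom) = Nat.card K :=
      Nat.card_congr (K.equivMapOfInjective (ι b).toMonoidHom (ι b).injective).toEquiv.symm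
    exact h2.ge
  -- three lines
  have key : ∀ (b : B) (K₁ K₂ K₃ : Subgroup M), Line K₁ → Line K₂ → Line K₃ → K₁ ≠ K₂ →
      K₁ ≠ K₃ → K₂ ≠ K₃ → (∀ m ∈ K₁, ι b m ∈ K₁) → (∀ m ∈ K₂, ι b m ∈ K₂) →
      (∀ m ∈ K₃, ι b m ∈ K₃) → b = 1 := by
    intro b K₁ K₂ K₃ l₁ l₂ l₃ n12 n13 n23 i₁ i₂ i₃
    exact hscal b (three_lines hp hcard l₁ l₂ l₃ n12 n13 n23 _ i₁ i₂ i₃)
  -- `A` has no invariant line
  have hAirr : ∀ K : Subgroup M, Line K → ¬ ∀ a ∈ A, ∀ m ∈ K, ι a m ∈ K := by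
    intro K hK hinv
    obtain ⟨g, hg⟩ : ∃ g : B, g • K ≠ K := by
      by_contra hcon
      push Not at hcon
      rcases hirr K (by
        intro b m hm
        have h1 := hcon b
        rw [← h1, hsm, MulAut.inv_apply_self]
        exact hm) with h | h
      · exact hK.1 h
      · exact hK.2 h
    obtain ⟨h, hh1, hh2⟩ := odd_orbit hodd hg
    have hconj : ∀ (b : B) (a : B), a ∈ A → ∀ m ∈ b • K, ι a m ∈ b • K := by
      intro b a ha m hm
      rw [hsm] at hm ⊢
      have h1 : b⁻¹ * a * b ∈ A := by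
        have := hAn.conj_mem a ha b⁻¹
        rwa [inv_inv] at this
      have h2 := hinv _ h1 _ hm
      have h3 : ι (b⁻¹ * a * b) ((ι b)⁻¹ m) = (ι b)⁻¹ (ι a m) := by
        rw [map_mul, map_mul, map_inv, MulAut.mul_apply, MulAut.mul_apply, MulAut.apply_inv_self]
      rwa [h3] at h2
    apply hA0
    rw [eq_bot_iff]
    intro a ha
    rw [Subgroup.mem_bot]
    exact key a K (g • K) (h • K) hK (hlin g K hK) (hlin h K hK) (Ne.symm hg) (Ne.symm hh1)
      (Ne.symm hh2) (hinv a ha) (hconj g a ha) (hconj h a ha)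
  obtain ⟨⟨a, haA⟩, ha1⟩ := (Subgroup.ne_bot_iff_exists_ne_one).mp hA0
  have ha1' : a ≠ 1 := fun h => ha1 (Subtype.ext h)
  -- `a` has no invariant line
  have hairr : ∀ K : Subgroup M, Line K → ¬ ∀ m ∈ K, ι a m ∈ K := by
    intro K hK hinv
    have hoddA : Odd (Nat.card A) := Odd.of_dvd_nat hodd A.card_subgroup_dvd_card
    obtain ⟨g, hg⟩ : ∃ g : A, g • K ≠ K := by
      by_contra hcon
      push Not at hcon
      apply hAirr K hK
      intro b hb m hm
      have h1 : (b : B) • K = K := hcon ⟨b, hb⟩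
      rw [← h1, hsm, MulAut.inv_apply_self]
      exact hm
    obtain ⟨h, hh1, hh2⟩ := odd_orbit hoddA hg
    have hcomm : ∀ b : A, ∀ m ∈ (b : B) • K, ι a m ∈ (b : B) • K := by
      intro b m hm
      rw [hsm] at hm ⊢
      have h2 := hinv _ hm
      have h3 : ι a ((ι b)⁻¹ m) = (ι b)⁻¹ (ι a m) := by
        have h4 : a * (b : B)⁻¹ = (b : B)⁻¹ * a := by
          rw [eq_inv_mul_iff_mul_eq, ← mul_assoc, hAc (b : B) b.2 a haA, mul_assoc,
            mul_inv_cancel, mul_one]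
        have h5 := congrArg (fun f : MulAut M => f m) (congrArg ι h4)
        simp only [map_mul, map_inv, MulAut.mul_apply] at h5
        exact h5
      rwa [h3] at h2
    apply ha1'
    exact key a K (g • K) (h • K) hK (hlin g K hK) (hlin h K hK) (Ne.symm hg) (Ne.symm hh1)
      (Ne.symm hh2) hinv (hcomm g) (hcomm h)
  obtain ⟨h1, h2⟩ := irred_mul hp (k := 2) (by norm_num) hcard hpM (ι a) (by
    intro K hK
    by_contra hcon
    push Not at hcon
    exact hairr K ⟨hcon.1, hcon.2⟩ hK)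
  have h3 := h2 1 (by norm_num) (by norm_num)
  -- a common prime factor
  by_contra hcon
  push Not at hcon
  apply h3
  have h4 : Nat.Coprime (orderOf (ι a)) (p + 1) := by
    by_contra h5
    obtain ⟨q, hq, hq1, hq2⟩ := Nat.Prime.not_coprime_iff_dvd.mp h5
    exact hcon a q hq hq1 hq2
  have h5 : p ^ 2 - 1 = (p + 1) * (p ^ 1 - 1) := by
    obtain ⟨k, rfl⟩ := Nat.exists_eq_succ_of_ne_zero hp.pos.ne'
    simp only [Nat.succ_eq_add_one, pow_one, Nat.add_sub_cancel]
    have : (k + 1) ^ 2 = (k + 1 + 1) * k + 1 := by ring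
    rw [this, Nat.add_sub_cancel]
  rw [h5] at h1
  exact h4.dvd_of_dvd_mul_left h1

end Pool.Agent.U803.DT
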