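import Mathlib
import Pool.Agent.U803.DT.Lines
import Pool.Agent.U803.DT.Base
import Pool.Agent.W446.AS.FLow
import Pool.Agent.W446.AS.FNum

/-!
# Arithmetic of frames
-/

set_option autoImplicit false
set_option linter.unusedSectionVars false

namespace Pool.Agent.U803.DT

open Pool.Agent.H302R2 Pool.Agent.H541R3.ART Pool.Agent.W446.AS

variable {G : Type} [Group G] [Finite G]

attribute [local instance] Act.grp Act.fin

/-- elements acting on a critical section as power maps -/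
lemma scalar_sq {E : Subgroup G} {p n : ℕ} (hE : Crit G E p n) (a : Act G E p n) {g : G} {k : ℤ}
    (hk : ∀ m, a.α g m = m ^ k) : a.α g ^ 2 = 1 := by
  classical
  obtain ⟨B, hB1, hB2⟩ := exists_form (F := E) hE.comm hE.cent hE.cyc
  obtain ⟨x, hx, y, hy, hxy⟩ := hE.exists_ne
  let x₀ : E := ⟨x, hx⟩
  let y₀ : E := ⟨y, hy⟩
  have hne : B x₀ y₀ ≠ 1 := fun h => hxy ((hB1 x₀ y₀).mp h)
  have hcen1 : ∀ z w : E, (z : G) ∈ Subgroup.center G → B z w = 1 := by
    intro z w hz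
    rw [hB1]
    exact (Subgroup.mem_center_iff.mp hz w).symm
  have hcen2 : ∀ z w : E, (w : G) ∈ Subgroup.center G → B z w = 1 := by
    intro z w hw
    rw [hB1]
    exact Subgroup.mem_center_iff.mp hw z
  have hp1 : B x₀ y₀ ^ p = 1 := by
    rw [← MonoidHom.pow_apply, ← map_pow]
    apply hcen1
    exact hE.pow x hx
  have hfp : Fact p.Prime := ⟨hE.prime⟩
  have hord : orderOf (B x₀ y₀) = p := orderOf_eq_prime hp1 hne
  have hconj : ∀ e : E, g * e * g⁻¹ ∈ E := fun e => hE.normal.conj_mem e e.2 g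
  have hq : ∀ e : E, ((⟨g * e * g⁻¹, hconj e⟩ * (e ^ k)⁻¹ : E) : G) ∈ Subgroup.center G := by
    intro e
    rw [← a.kerq, map_mul, map_inv, map_zpow, ← a.act g e (hconj e), hk, mul_inv_cancel]
  have h1 : B ⟨g * x * g⁻¹, hconj x₀⟩ ⟨g * y * g⁻¹, hconj y₀⟩ = B x₀ y₀ :=
    hB2 g x₀ y₀ _ _ rfl rfl
  have h2 : B ⟨g * x * g⁻¹, hconj x₀⟩ ⟨g * y * g⁻¹, hconj y₀⟩
      = B (x₀ ^ k) ⟨g * y * g⁻¹, hconj y₀⟩ := by
    have h3 := hcen1 _ ⟨g * y * g⁻¹, hconj y₀⟩ (hq x₀)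
    rw [map_mul, MonoidHom.mul_apply, map_inv, MonoidHom.inv_apply, mul_inv_eq_one] at h3
    exact h3
  have h3 : B (x₀ ^ k) ⟨g * y * g⁻¹, hconj y₀⟩ = B (x₀ ^ k) (y₀ ^ k) := by
    have h4 := hcen2 (x₀ ^ k) _ (hq y₀)
    rw [map_mul, map_inv, mul_inv_eq_one] at h4
    exact h4
  have h4 : B (x₀ ^ k) (y₀ ^ k) = B x₀ y₀ ^ (k * k) := by
    rw [map_zpow, map_zpow, MonoidHom.zpow_apply, ← zpow_mul]
  have h5 : B x₀ y₀ ^ (k * k - 1) = 1 := by
    rw [zpow_sub_one, ← h4, ← h3, ← h2, h1, mul_inv_cancel]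
  have h6 : (p : ℤ) ∣ k * k - 1 := by
    rw [← hord]
    exact orderOf_dvd_iff_zpow_eq_one.mpr h5
  obtain ⟨c, hc⟩ := h6
  ext m
  rw [pow_two, MulAut.mul_apply, hk, hk, MulAut.one_apply, ← zpow_mul]
  have h7 : k * k = p * c + 1 := by linarith
  rw [h7, zpow_add_one, zpow_mul, zpow_natCast, a.pow, one_zpow, one_mul]

/-- **The obstruction in degree `p` for groups of odd order.** -/
lemma odd_crit [Group.IsSolvable G] (hodd : Odd (Nat.card G)) {E : Subgroup G} {p : ℕ}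
    (hE : Crit G E p 1) : ∃ q : ℕ, q.Prime ∧ q ∣ p + 1 ∧ q ∣ E.index := by
  classical
  have hn := hE.normal
  obtain ⟨a⟩ := hE.exists_act
  have hsol : Group.IsSolvable a.α.range :=
    Group.isSolvable_of_surjective (f := a.α.rangeRestrict) a.α.rangeRestrict_surjective
  have hcard : Nat.card a.M = p ^ 2 := a.card
  have hoddB : Odd (Nat.card a.α.range) := by
    refine Odd.of_dvd_nat hodd ?_
    exact Subgroup.card_range_dvd a.α
  obtain ⟨b, q, hq, hqb, hqp⟩ := odd_irred hE.prime hcard a.pow a.α.range.subtype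
    hoddB (by
      intro K hK
      refine a.irr K fun x m hm => ?_
      exact hK ⟨a.α x, x, rfl⟩ m hm) (by
      rintro ⟨_, x, rfl⟩ ⟨k, hk⟩
      have h1 : a.α x ^ 2 = 1 := scalar_sq hE a hk
      apply Subtype.ext
      change a.α x = 1
      have h2 : (⟨a.α x, x, rfl⟩ : a.α.range) ^ 2 = 1 := Subtype.ext h1
      have h3 : (Nat.card a.α.range).Coprime 2 := hoddB.coprime_two_right
      have h4 := (powCoprime h3).injective (a₁ := (⟨a.α x, x, rfl⟩ : a.α.range)) (a₂ := 1)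
        (by simpa using h2)
      exact congrArg Subtype.val h4)
  obtain ⟨x, hx⟩ := b.2
  refine ⟨q, hq, hqp, hqb.trans ?_⟩
  have h5 : a.α.range.subtype b = a.α x := hx.symm
  rw [h5]
  exact a.order_dvd x

/-- the prime divisors which belong to a frame -/
theorem frame_prime [Group.IsSolvable G] {F : Subgroup G} {D : ℕ} (hF : Frame G F D) :
    ∃ p n q i : ℕ, p.Prime ∧ 0 < n ∧ p ^ n ∣ D ∧ p ∣ Nat.card (Subgroup.center G) ∧ q.Prime ∧
      q ≠ p ∧ 0 < i ∧ i ≤ 2 * n ∧ q ∣ p ^ i - 1 ∧ p ^ (2 * n + 1) * q ∣ Nat.card G ∧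
      (Odd (Nat.card G) → n = 1 → q ∣ p + 1) := by
  classical
  obtain ⟨E, p, n, hEF, hE⟩ := exists_crit_le hF.abel hF.cyc hF.normal hF.le hF.ne hF.comm
  have hEn := hE.normal
  have hZpos : 0 < Nat.card (Subgroup.center G) := Nat.card_pos
  have h3 : Nat.card E ∣ Nat.card F := Subgroup.card_dvd_of_le hEF
  rw [hE.card, hF.card] at h3
  have h4 : (p ^ n) ^ 2 ∣ D ^ 2 := by
    rw [← pow_mul, mul_comm n 2]
    exact Nat.dvd_of_mul_dvd_mul_right hZpos h3
  have h5 : p ^ n ∣ D := (Nat.pow_dvd_pow_iff (by norm_num)).mp h4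
  have hdvd : ∀ m, m ∣ E.index → p ^ (2 * n + 1) * m ∣ Nat.card G := by
    intro m hm
    rw [← Subgroup.index_mul_card E, mul_comm (p ^ (2 * n + 1)) m]
    exact mul_dvd_mul hm hE.dvd_card
  by_cases hc : Odd (Nat.card G) ∧ n = 1
  · obtain ⟨hodd, rfl⟩ := hc
    obtain ⟨q, hq, hqp, hqE⟩ := odd_crit hodd hE
    refine ⟨p, 1, q, 2, hE.prime, one_pos, h5, hE.dvd_center, hq, ?_, by norm_num, le_rfl, ?_,
      hdvd q hqE, fun _ _ => hqp⟩
    · rintro rfl
      have h6 : q ∣ 1 := (Nat.dvd_add_right (dvd_refl q)).mp hqp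
      exact hq.one_lt.ne' (Nat.dvd_one.mp h6)
    · have h6 : p ^ 2 - 1 = (p + 1) * (p - 1) := by
        have := Nat.sq_sub_sq p 1
        simpa using this
      rw [h6]
      exact Dvd.dvd.mul_right hqp _
  · obtain ⟨a⟩ := hE.exists_act
    obtain ⟨q, i, hq, hqp, hi, hin, hqi, hqE⟩ := a.exists_prime hE.prime hE.pos
    exact ⟨p, n, q, i, hE.prime, hE.pos, h5, hE.dvd_center, hq, hqp, hi, hin, hqi, hdvd q hqE,
      fun h1 h2 => absurd ⟨h1, h2⟩ hc⟩

end Pool.Agent.U803.DT
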