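import Mathlib
import Pool.Agent.U803.DT.Num

/-!
# Arithmetic conditions which exclude small frames
-/

set_option autoImplicit false
set_option linter.unusedSectionVars false

namespace Pool.Agent.U803.DT

open Pool.Agent.H302R2 Pool.Agent.H541R3.ART Pool.Agent.W446.AS

/-- the data of a critical section of degree `p ^ n` in a group of order `N` -/
structure Dat (N p n q i : ℕ) : Prop where
  hp : p.Prime
  hn : 0 < n
  hq : q.Prime
  hqp : q ≠ p
  hi : 0 < i
  hin : i ≤ 2 * n
  hqi : q ∣ p ^ i - 1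
  dvd : p ^ (2 * n + 1) * q ∣ N
  odd : Odd N → n = 1 → q ∣ p + 1

lemma Dat.p_dvd {N p n q i : ℕ} (h : Dat N p n q i) : p ∣ N :=
  (dvd_pow_self p (by omega)).trans ((dvd_mul_right _ q).trans h.dvd)

lemma Dat.q_dvd {N p n q i : ℕ} (h : Dat N p n q i) : q ∣ N := (dvd_mul_left q _).trans h.dvd

lemma exists_dat {G : Type} [Group G] [Finite G] [Group.IsSolvable G] (H : Subgroup G) {X : Type}
    [Group X] (f : H →* X) (hf : Function.Surjective f) {F : Subgroup X} {D : ℕ}
    (hF : Frame X F D) : ∃ p n q i : ℕ, Dat (Nat.card G) p n q i ∧ p ^ n ≤ D ∧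
      p ∣ Nat.card (Subgroup.center X) ∧ Finite X ∧ Nat.card X ∣ Nat.card G := by
  have hXfin : Finite X := Finite.of_surjective f hf
  have hXsol : Group.IsSolvable X := Group.isSolvable_of_surjective hf
  have hXG : Nat.card X ∣ Nat.card G :=
    (Subgroup.card_dvd_of_surjective f hf).trans (Subgroup.card_subgroup_dvd_card H)
  obtain ⟨p, n, q, i, hp, hn, hpD, hpc, hq, hqp, hi, hin, hqi, hdvd, hodd⟩ := frame_prime hF
  refine ⟨p, n, q, i, ⟨hp, hn, hq, hqp, hi, hin, hqi, hdvd.trans hXG, fun h1 h2 => ?_⟩, ?_, hpc,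
    hXfin, hXG⟩
  · exact hodd (Odd.of_dvd_nat h1 hXG) h2
  · exact Nat.le_of_dvd (by have := hF.one_lt; omega) hpD

/-- frames of all degrees, general coefficients -/
lemma nf_one {G : Type} [Group G] [Finite G] [Group.IsSolvable G] {r : ℕ}
    (h : ∀ p n q i : ℕ, Dat (Nat.card G) p n q i → r < p ^ n) : NF {1} r G := by
  intro H X _ f hf F D hF
  obtain ⟨p, n, q, i, hd, hpD, -, -, -⟩ := exists_dat H f hf hF
  rw [Set.image_singleton, Set.ncard_singleton, mul_one]
  exact (h p n q i hd).trans_le hpD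

/-- the number of the residues prime to the modulus -/
lemma ncard_coprime {n N : ℕ} (hN : N ≠ 0) (h : n ∣ N) {p : ℕ} (hp : p.Prime) (hpn : p ∣ n) :
    p - 1 ≤ Set.ncard ((fun k : ℕ => (k : ZMod n)) '' {k | k.Coprime N}) := by
  classical
  have hn0 : n ≠ 0 := by
    rintro rfl
    exact hN (Nat.eq_zero_of_zero_dvd h)
  have : NeZero n := ⟨hn0⟩
  have : NeZero N := ⟨hN⟩
  have h1 : Set.range (fun u : (ZMod n)ˣ => (u : ZMod n)) ⊆
      (fun k : ℕ => (k : ZMod n)) '' {k | k.Coprime N} := by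
    rintro _ ⟨u, rfl⟩
    obtain ⟨v, hv⟩ := ZMod.unitsMap_surjective h u
    refine ⟨(v : ZMod N).val, ZMod.val_coe_unit_coprime v, ?_⟩
    rw [← hv]
    change (((v : ZMod N).val : ℕ) : ZMod n) = _
    rw [ZMod.unitsMap_def]
    change _ = ZMod.castHom h (ZMod n) (v : ZMod N)
    rw [ZMod.castHom_apply, ZMod.natCast_val]
  have h2 : Set.ncard (Set.range (fun u : (ZMod n)ˣ => (u : ZMod n))) = n.totient := by
    rw [← Set.image_univ, Set.ncard_image_of_injective _ Units.val_injective, Set.ncard_univ,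
      Nat.card_eq_fintype_card, ZMod.card_units_eq_totient]
  have h3 : p.totient ≤ n.totient :=
    Nat.le_of_dvd (Nat.totient_pos.mpr (Nat.pos_of_ne_zero hn0)) (Nat.totient_dvd_of_dvd hpn)
  rw [Nat.totient_prime hp, ← h2] at h3
  exact h3.trans (Set.ncard_le_ncard h1 (Set.toFinite _))

/-- frames of all degrees, rational coefficients -/
lemma nf_coprime {G : Type} [Group G] [Finite G] [Group.IsSolvable G] {r N : ℕ} (hN : N ≠ 0)
    (hGN : Nat.card G ∣ N)
    (h : ∀ p n q i : ℕ, Dat (Nat.card G) p n q i → r < p ^ n * (p - 1)) :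
    NF {k | k.Coprime N} r G := by
  intro H X _ f hf F D hF
  obtain ⟨p, n, q, i, hd, hpD, hpc, hXf, hXG⟩ := exists_dat H f hf hF
  have h1 := h p n q i hd
  have h2 := ncard_coprime hN (((Subgroup.center X).card_subgroup_dvd_card.trans hXG).trans hGN)
    hd.hp hpc
  exact h1.trans_le (Nat.mul_le_mul hpD h2)

section arith

variable {N p n q i : ℕ}

lemma three_le (hN : Odd N) {q : ℕ} (hq : q.Prime) (hd : q ∣ N) : 3 ≤ q := by
  have h1 := Odd.of_dvd_nat hN hd
  have h2 := hq.two_le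
  rcases h2.lt_or_eq with h3 | h3
  · omega
  · rw [← h3] at h1
    exact absurd h1 (by decide)

/-- for odd order and `n = 1`: the prime `q` is at most half of `p + 1` -/
lemma Dat.succ (h : Dat N p n q i) (hN : Odd N) (hn : n = 1) : 2 * q ≤ p + 1 := by
  obtain ⟨k, hk⟩ := h.odd hN hn
  have h3 : 3 ≤ p := three_le hN h.hp h.p_dvd
  have h4 : Odd p := h.hp.odd_of_ne_two (by omega)
  have h5 : Odd q := h.hq.odd_of_ne_two (by have := three_le hN h.hq h.q_dvd; omega)
  have h6 : k ≠ 0 := by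
    rintro rfl
    omega
  have h7 : k ≠ 1 := by
    rintro rfl
    rw [mul_one] at hk
    rw [← hk] at h5
    exact (Nat.not_even_iff_odd.mpr h5) h4.add_one
  have h8 : 2 ≤ k := by omega
  rw [hk, mul_comm]
  exact Nat.mul_le_mul_left q h8

lemma Dat.two_le (h : Dat N p n q i) (hn : n ≠ 1) : p ^ 2 ≤ p ^ n :=
  Nat.pow_le_pow_right h.hp.pos (by have := h.hn; omega)

/-- all prime divisors are at least `P` -/
lemma Dat.least (h : Dat N p n q i) {P r : ℕ} (hP : 3 ≤ P) (hPN : ∀ q, q.Prime → q ∣ N → P ≤ q)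
    (hr : r ≤ 2 * P - 2) : r < p ^ n := by
  have hN : Odd N := by
    rw [← Nat.not_even_iff_odd]
    intro h2
    have := hPN 2 Nat.prime_two (even_iff_two_dvd.mp h2)
    omega
  have hpP := hPN p h.hp h.p_dvd
  by_cases hn : n = 1
  · have h1 := h.succ hN hn
    have h2 := hPN q h.hq h.q_dvd
    subst hn
    rw [pow_one]
    omega
  · have h1 := h.two_le hn
    have h2 : P * P ≤ p * p := Nat.mul_le_mul hpP hpP
    have h3 : 2 * P ≤ P * P := Nat.mul_le_mul_right P (by omega)
    rw [pow_two] at h1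
    omega

lemma five_le (hN : N.Coprime 6) {q : ℕ} (hq : q.Prime) (hd : q ∣ N) : 5 ≤ q := by
  by_contra hlt
  push Not at hlt
  have h1 : q.Coprime 6 := Nat.Coprime.coprime_dvd_left hd hN
  have h2 := hq.two_le
  interval_cases q <;> revert h1 <;> decide

lemma odd_of_six (hN : N.Coprime 6) : Odd N := by
  rw [← Nat.not_even_iff_odd]
  intro h2
  have := five_le hN Nat.prime_two (even_iff_two_dvd.mp h2)
  omega

/-- order prime to six, `n = 1` -/
lemma Dat.thirteen (h : Dat N p n q i) (hN : N.Coprime 6) (hn : n = 1) : 13 ≤ p := by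
  have h1 := h.odd (odd_of_six hN) hn
  have h2 := five_le hN h.hq h.q_dvd
  have h3 := h.succ (odd_of_six hN) hn
  have h4 := five_le hN h.hp h.p_dvd
  by_contra hlt
  push Not at hlt
  have hp := h.hp
  have hq := h.hq
  have h5 : p = 11 := by
    clear h1 h
    interval_cases p <;> first | rfl | (revert hp; decide) | omega
  subst h5
  have h6 : q ≤ 6 := by omega
  interval_cases q
  · omega
  · revert hq; decide

/-- order prime to six, general coefficients -/
lemma Dat.six (h : Dat N p n q i) (hN : N.Coprime 6) {r : ℕ} (hr : r ≤ 12) : r < p ^ n := by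
  by_cases hn : n = 1
  · have h1 := h.thirteen hN hn
    subst hn
    rw [pow_one]
    omega
  · have h1 := h.two_le hn
    have h2 := five_le hN h.hp h.p_dvd
    nlinarith

/-- order prime to six, rational coefficients -/
lemma Dat.six' (h : Dat N p n q i) (hN : N.Coprime 6) {r : ℕ} (hr : r ≤ 99) :
    r < p ^ n * (p - 1) := by
  have h2 := five_le hN h.hp h.p_dvd
  obtain ⟨m, rfl⟩ : ∃ m, p = m + 1 := ⟨p - 1, by omega⟩
  rw [Nat.add_sub_cancel]
  by_cases hn : n = 1
  · have h1 := h.thirteen hN hn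
    subst hn
    rw [pow_one]
    nlinarith
  · have h1 := h.two_le hn
    nlinarith

/-- odd order, `n = 1` -/
lemma Dat.five (h : Dat N p n q i) (hN : Odd N) (hn : n = 1) :
    (p = 5 ∧ q = 3) ∨ 11 ≤ p := by
  have h1 := h.odd hN hn
  have h2 := three_le hN h.hq h.q_dvd
  have h3 := h.succ hN hn
  by_contra hlt
  push Not at hlt
  have hp := h.hp
  have hq := h.hq
  have h4 : p = 5 ∨ p = 7 := by
    clear h1 h
    have : p ≤ 10 := by omega
    interval_cases p <;> first | omega | (revert hp; decide)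
  rcases h4 with rfl | rfl
  · have : q ≤ 3 := by omega
    exact hlt.1 rfl (by omega)
  · have : q ≤ 4 := by omega
    interval_cases q
    · omega
    · revert hq; decide

/-- powers of three -/
lemma Dat.nine (h : Dat N p n q i) (hN : Odd N) (h1 : ¬ 1215 ∣ N) (h2 : ¬ 3159 ∣ N)
    (hn : n ≠ 1) : 25 ≤ p ^ n ∧ (p = 3 → 3 ≤ n) := by
  have hp3 := three_le hN h.hp h.p_dvd
  have h3 : p = 3 → 3 ≤ n := by
    rintro rfl
    by_contra hlt
    have hn2 : n = 2 := by
      have := h.hn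
      omega
    subst hn2
    have hq := h.hq
    have hqi := h.hqi
    have hi4 := h.hin
    have hi := h.hi
    have hq3 := three_le hN h.hq h.q_dvd
    have key : q = 5 ∨ q = 13 := by
      have h5 : q ∣ 2 ∨ q ∣ 8 ∨ q ∣ 26 ∨ q ∣ 80 := by
        interval_cases i
        · left; exact hqi
        · right; left; exact hqi
        · right; right; left; exact hqi
        · right; right; right; exact hqi
      have h2' : ∀ m, q ∣ 2 * m → q ∣ m := by
        intro m hm
        rcases (hq.dvd_mul).mp hm with h6 | h6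
        · have := Nat.le_of_dvd (by norm_num) h6
          omega
        · exact h6
      rcases h5 with h5 | h5 | h5 | h5
      · have := Nat.le_of_dvd (by norm_num) h5
        omega
      · have h6 := h2' 2 (h2' 4 h5)
        have := Nat.le_of_dvd (by norm_num) h6
        omega
      · right
        exact (Nat.prime_dvd_prime_iff_eq hq (by norm_num)).mp (h2' 13 h5)
      · left
        exact (Nat.prime_dvd_prime_iff_eq hq (by norm_num)).mp
          (h2' 5 (h2' 10 (h2' 20 (h2' 40 h5))))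
    have hd := h.dvd
    rcases key with rfl | rfl
    · exact h1 hd
    · exact h2 hd
  refine ⟨?_, h3⟩
  by_cases h4 : p = 3
  · subst h4
    have h5 : 3 ^ 3 ≤ 3 ^ n := Nat.pow_le_pow_right (by norm_num) (h3 rfl)
    omega
  · have h5 := h.two_le hn
    have h6 : p ≠ 4 := by
      rintro rfl
      exact absurd h.hp (by decide)
    have h7 : 5 ≤ p := by omega
    nlinarith

/-- odd order, general coefficients -/
lemma Dat.eight (h : Dat N p n q i) (hN : Odd N) (h375 : ¬ 375 ∣ N) {r : ℕ} (hr : r ≤ 8) :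
    r < p ^ n := by
  have hp3 := three_le hN h.hp h.p_dvd
  by_cases hn : n = 1
  · subst hn
    rw [pow_one]
    rcases h.five hN rfl with ⟨rfl, rfl⟩ | h1
    · exact absurd h.dvd h375
    · omega
  · have h1 := h.two_le hn
    nlinarith

lemma Dat.ten (h : Dat N p n q i) (hN : Odd N) (h375 : ¬ 375 ∣ N) (h1 : ¬ 1215 ∣ N)
    (h2 : ¬ 3159 ∣ N) {r : ℕ} (hr : r ≤ 10) : r < p ^ n := by
  by_cases hn : n = 1
  · subst hn
    rw [pow_one]
    rcases h.five hN rfl with ⟨rfl, rfl⟩ | h1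
    · exact absurd h.dvd h375
    · omega
  · have h3 := h.nine hN h1 h2 hn
    omega

/-- odd order, rational coefficients -/
lemma Dat.seventeen (h : Dat N p n q i) (hN : Odd N) {r : ℕ} (hr : r ≤ 17) :
    r < p ^ n * (p - 1) := by
  have hp3 := three_le hN h.hp h.p_dvd
  obtain ⟨m, rfl⟩ : ∃ m, p = m + 1 := ⟨p - 1, by omega⟩
  rw [Nat.add_sub_cancel]
  by_cases hn : n = 1
  · have h5 : 5 ≤ m + 1 := by
      rcases h.five hN hn with h5 | h5 <;> omega
    subst hn
    rw [pow_one]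
    nlinarith
  · have h1 := h.two_le hn
    nlinarith

lemma Dat.fiftythree (h : Dat N p n q i) (hN : Odd N) (h375 : ¬ 375 ∣ N) (h1 : ¬ 1215 ∣ N)
    (h2 : ¬ 3159 ∣ N) {r : ℕ} (hr : r ≤ 53) : r < p ^ n * (p - 1) := by
  have hp3 := three_le hN h.hp h.p_dvd
  by_cases hn : n = 1
  · subst hn
    rw [pow_one]
    rcases h.five hN rfl with ⟨rfl, rfl⟩ | h3
    · exact absurd h.dvd h375
    · obtain ⟨m, rfl⟩ : ∃ m, p = m + 1 := ⟨p - 1, by omega⟩
      rw [Nat.add_sub_cancel]
      nlinarith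
  · obtain ⟨h3, h4⟩ := h.nine hN h1 h2 hn
    by_cases h5 : p = 3
    · subst h5
      have h6 : 3 ^ 3 ≤ 3 ^ n := Nat.pow_le_pow_right (by norm_num) (h4 rfl)
      omega
    · have h6 : p ≠ 4 := by
        rintro rfl
        exact absurd h.hp (by decide)
      have h7 : 4 ≤ p - 1 := by omega
      calc r < 25 * 4 := by omega
        _ ≤ p ^ n * (p - 1) := Nat.mul_le_mul h3 h7

/-- all prime divisors are at least `P`, rational coefficients -/
lemma Dat.least' (h : Dat N p n q i) {P r : ℕ} (hP : 5 ≤ P)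
    (hPN : ∀ q, q.Prime → q ∣ N → P ≤ q) (hr : r < (2 * P - 1) * (2 * P - 2)) :
    r < p ^ n * (p - 1) := by
  have hN : Odd N := by
    rw [← Nat.not_even_iff_odd]
    intro h2
    have := hPN 2 Nat.prime_two (even_iff_two_dvd.mp h2)
    omega
  have hpP := hPN p h.hp h.p_dvd
  refine hr.trans_le ?_
  by_cases hn : n = 1
  · have h1 := h.succ hN hn
    have h2 := hPN q h.hq h.q_dvd
    subst hn
    rw [pow_one]
    exact Nat.mul_le_mul (by omega) (by omega)
  · have h1 := h.two_le hn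
    obtain ⟨m, rfl⟩ : ∃ m, p = m + 1 := ⟨p - 1, by omega⟩
    obtain ⟨R, rfl⟩ : ∃ R, P = R + 1 := ⟨P - 1, by omega⟩
    rw [Nat.add_sub_cancel]
    have e1 : 2 * (R + 1) - 1 = 2 * R + 1 := by omega
    have e2 : 2 * (R + 1) - 2 = 2 * R := by omega
    rw [e1, e2]
    have h3 : R ≤ m := by omega
    have h4 : (2 * R + 1) * 2 ≤ (m + 1) ^ n := by nlinarith
    calc (2 * R + 1) * (2 * R) = (2 * R + 1) * 2 * R := by ring
      _ ≤ (m + 1) ^ n * m := Nat.mul_le_mul h4 h3

/-- even order, degree two -/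
lemma Dat.two (h : Dat N 2 n q i) (h24 : ¬ 24 ∣ N) : 2 ≤ n ∧ (¬ 160 ∣ N → ¬ 224 ∣ N → 3 ≤ n) := by
  have hq := h.hq
  have hqi := h.hqi
  have hi := h.hi
  have hin := h.hin
  have hn := h.hn
  have hd := h.dvd
  have hq3 : 3 ≤ q := by
    have h1 := h.hqp
    have h2 := hq.two_le
    omega
  have h1 : n ≠ 1 := by
    rintro rfl
    have h3 : q ∣ 1 ∨ q ∣ 3 := by
      interval_cases i
      · left; exact hqi
      · right; exact hqi
    rcases h3 with h3 | h3
    · have := Nat.le_of_dvd (by norm_num) h3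
      omega
    · rw [(Nat.prime_dvd_prime_iff_eq hq Nat.prime_three).mp h3] at hd
      exact h24 hd
  refine ⟨by omega, fun h160 h224 => ?_⟩
  by_contra hlt
  have hn2 : n = 2 := by omega
  subst hn2
  have h3 : q ∣ 1 ∨ q ∣ 3 ∨ q ∣ 7 ∨ q ∣ 3 * 5 := by
    interval_cases i
    · left; exact hqi
    · right; left; exact hqi
    · right; right; left; exact hqi
    · right; right; right; exact hqi
  have k3 : q ≠ 3 := by
    rintro rfl
    exact h24 ((show (24 : ℕ) ∣ 2 ^ (2 * 2 + 1) * 3 by norm_num).trans hd)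
  rcases h3 with h3 | h3 | h3 | h3
  · have := Nat.le_of_dvd (by norm_num) h3
    omega
  · exact k3 ((Nat.prime_dvd_prime_iff_eq hq Nat.prime_three).mp h3)
  · rw [(Nat.prime_dvd_prime_iff_eq hq (by norm_num)).mp h3] at hd
    exact h224 hd
  · rcases (hq.dvd_mul).mp h3 with h4 | h4
    · exact k3 ((Nat.prime_dvd_prime_iff_eq hq Nat.prime_three).mp h4)
    · rw [(Nat.prime_dvd_prime_iff_eq hq Nat.prime_five).mp h4] at hd
      exact h160 hd

/-- even order, degree three -/
lemma Dat.three (h : Dat N 3 n q i) (h54 : ¬ 54 ∣ N) : 2 ≤ n := by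
  have hq := h.hq
  have hqi := h.hqi
  have hi := h.hi
  have hin := h.hin
  have hn := h.hn
  have hd := h.dvd
  by_contra hlt
  have hn1 : n = 1 := by omega
  subst hn1
  have h3 : q ∣ 2 ∨ q ∣ 2 ^ 3 := by
    interval_cases i
    · left; exact hqi
    · right; exact hqi
  have h4 : q = 2 := by
    rcases h3 with h3 | h3
    · exact (Nat.prime_dvd_prime_iff_eq hq Nat.prime_two).mp h3
    · exact (Nat.prime_dvd_prime_iff_eq hq Nat.prime_two).mp (hq.dvd_of_dvd_pow h3)
  subst h4
  exact h54 hd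

/-- general coefficients, orders not divisible by `24` and `54` -/
lemma Dat.gen3 (h : Dat N p n q i) (h24 : ¬ 24 ∣ N) (h54 : ¬ 54 ∣ N) {r : ℕ} (hr : r ≤ 3) :
    r < p ^ n := by
  have h2 := h.hp.two_le
  have hn := h.hn
  rcases Nat.lt_or_ge p 4 with h3 | h3
  · have h4 : p = 2 ∨ p = 3 := by omega
    rcases h4 with rfl | rfl
    · have h5 := (h.two h24).1
      have h6 : 2 ^ 2 ≤ 2 ^ n := Nat.pow_le_pow_right (by norm_num) h5
      omega
    · have h5 := h.three h54
      have h6 : 3 ^ 2 ≤ 3 ^ n := Nat.pow_le_pow_right (by norm_num) h5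
      omega
  · have h6 : p ≤ p ^ n := Nat.le_self_pow hn.ne' p
    omega

lemma Dat.gen4 (h : Dat N p n q i) (h24 : ¬ 24 ∣ N) (h54 : ¬ 54 ∣ N) (h160 : ¬ 160 ∣ N)
    (h224 : ¬ 224 ∣ N) {r : ℕ} (hr : r ≤ 4) : r < p ^ n := by
  have h2 := h.hp.two_le
  have hn := h.hn
  rcases Nat.lt_or_ge p 4 with h3 | h3
  · have h4 : p = 2 ∨ p = 3 := by omega
    rcases h4 with rfl | rfl
    · have h5 := (h.two h24).2 h160 h224
      have h6 : 2 ^ 3 ≤ 2 ^ n := Nat.pow_le_pow_right (by norm_num) h5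
      omega
    · have h5 := h.three h54
      have h6 : 3 ^ 2 ≤ 3 ^ n := Nat.pow_le_pow_right (by norm_num) h5
      omega
  · have h6 : p ≤ p ^ n := Nat.le_self_pow hn.ne' p
    have h7 : p ≠ 4 := by
      rintro rfl
      exact absurd h.hp (by decide)
    omega

/-- rational coefficients, orders not divisible by `24` -/
lemma Dat.rat3 (h : Dat N p n q i) (h24 : ¬ 24 ∣ N) {r : ℕ} (hr : r ≤ 3) :
    r < p ^ n * (p - 1) := by
  have h2 := h.hp.two_le
  have hn := h.hn
  rcases Nat.lt_or_ge p 3 with h3 | h3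
  · have h4 : p = 2 := by omega
    subst h4
    have h5 := (h.two h24).1
    have h6 : 2 ^ 2 ≤ 2 ^ n := Nat.pow_le_pow_right (by norm_num) h5
    omega
  · have h6 : p ≤ p ^ n := Nat.le_self_pow hn.ne' p
    have h7 : 3 * 2 ≤ p ^ n * (p - 1) := Nat.mul_le_mul (by omega) (by omega)
    omega

lemma Dat.rat5 (h : Dat N p n q i) (h24 : ¬ 24 ∣ N) (h160 : ¬ 160 ∣ N) (h224 : ¬ 224 ∣ N)
    {r : ℕ} (hr : r ≤ 5) : r < p ^ n * (p - 1) := by
  have h2 := h.hp.two_le
  have hn := h.hn
  rcases Nat.lt_or_ge p 3 with h3 | h3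
  · have h4 : p = 2 := by omega
    subst h4
    have h5 := (h.two h24).2 h160 h224
    have h6 : 2 ^ 3 ≤ 2 ^ n := Nat.pow_le_pow_right (by norm_num) h5
    omega
  · have h6 : p ≤ p ^ n := Nat.le_self_pow hn.ne' p
    have h7 : 3 * 2 ≤ p ^ n * (p - 1) := Nat.mul_le_mul (by omega) (by omega)
    omega

lemma Dat.rat7 (h : Dat N p n q i) (h24 : ¬ 24 ∣ N) (h54 : ¬ 54 ∣ N) (h160 : ¬ 160 ∣ N)
    (h224 : ¬ 224 ∣ N) {r : ℕ} (hr : r ≤ 7) : r < p ^ n * (p - 1) := by
  have h2 := h.hp.two_le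
  have hn := h.hn
  rcases Nat.lt_or_ge p 4 with h3 | h3
  · have h4 : p = 2 ∨ p = 3 := by omega
    rcases h4 with rfl | rfl
    · have h5 := (h.two h24).2 h160 h224
      have h6 : 2 ^ 3 ≤ 2 ^ n := Nat.pow_le_pow_right (by norm_num) h5
      omega
    · have h5 := h.three h54
      have h6 : 3 ^ 2 ≤ 3 ^ n := Nat.pow_le_pow_right (by norm_num) h5
      omega
  · have h6 : p ≤ p ^ n := Nat.le_self_pow hn.ne' p
    have h7 : 4 * 3 ≤ p ^ n * (p - 1) := Nat.mul_le_mul (by omega) (by omega)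
    omega

end arith

end Pool.Agent.U803.DT
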