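import Mathlib
import Pool.Agent.U803.DT.Base

/-!
# The induction along frames
-/

set_option autoImplicit false
set_option linter.unusedSectionVars false

namespace Pool.Agent.U803.DT

open Pool.Agent.H302R2 Pool.Agent.H302R3 Pool.Agent.H302R5 Pool.Agent.H302R6
open Pool.Agent.H541R3.ART Pool.Agent.W446.AS Pool.Agent.R389

variable {G : Type} [Group G] [Finite G] {θ : G → ℂ}

/-- the part of `θ` above a faithful central character has degree divisible by the degree of a
frame -/
lemma dvd_lam {F : Subgroup G} {D : ℕ} (hF : Frame G F D) (hθ : IsHeilbronn θ)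
    (ν : Subgroup.center G →* ℂˣ) (hν : Function.Injective ν) :
    ∃ k : ℕ, lam (Subgroup.center G) ν θ 1 = ((k * D : ℕ) : ℂ) := by
  obtain ⟨d, hd, hdcard, hdiv⟩ := ext_sub hF.le hF.comm (fun x _ hx => hF.cent x hx) ν hν
  have hZpos : 0 < Nat.card (Subgroup.center G) := Nat.card_pos
  have hdp : d = D := by
    have h1 : d ^ 2 = D ^ 2 := by
      apply Nat.eq_of_mul_eq_mul_right hZpos
      rw [hdcard, hF.card]
    exact Nat.pow_left_injective (n := 2) (by norm_num) h1
  have hτ : IsHeilbronn (lam (Subgroup.center G) ν θ) := lam_heilbronn le_rfl hθ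
  obtain ⟨k, hk⟩ := hdiv G F.subtype _ hτ (by
    intro g z
    exact lam_mul (g : G) z)
  refine ⟨k, ?_⟩
  rw [hk, hdp]
  push_cast
  rfl

/-- the multiplicity of a linear character of a subgroup -/
lemma pr_lin_lam (hc : ∀ g x : G, θ (x * g * x⁻¹) = θ g) (Z : Subgroup G) (μ : Z →* ℂˣ) :
    pr θ (ind Z (lc μ)) = lam Z μ θ 1 := by
  classical
  have : Fintype Z := Fintype.ofFinite Z
  rw [frob' Z _ hc, pr_eq, lam_eq]
  congr 1
  refine Finset.sum_congr rfl fun z _ => ?_
  rw [one_mul]
  change θ z * ((μ z⁻¹ : ℂˣ) : ℂ) = _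
  rw [map_inv]

/-- the powers of a faithful character of a finite cyclic group -/
lemma ncard_powers {Z : Type} [Group Z] [Finite Z] (hcyc : IsCyclic Z) (ω : Z →* ℂˣ)
    (hω : Function.Injective ω) (S : Set ℕ) (T : Finset (Z →* ℂˣ))
    (hT : ∀ k ∈ S, ω ^ k ∈ T) :
    Set.ncard ((fun k : ℕ => (k : ZMod (Nat.card Z))) '' S) ≤ T.card := by
  classical
  have hn : NeZero (Nat.card Z) := ⟨Nat.card_pos.ne'⟩
  obtain ⟨z, hz⟩ := hcyc.exists_generator
  have hord : orderOf z = Nat.card Z := orderOf_eq_card_of_forall_mem_zpowers hz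
  rw [← Set.ncard_coe_finset T]
  refine Set.ncard_le_ncard_of_injOn (fun c : ZMod (Nat.card Z) => ω ^ c.val) ?_ ?_ ?_
  · rintro _ ⟨k, hk, rfl⟩
    have h1 : ω ^ ((k : ZMod (Nat.card Z))).val = ω ^ k := by
      ext x
      rw [MonoidHom.pow_apply, MonoidHom.pow_apply, ← map_pow, ← map_pow, ZMod.val_natCast,
        pow_mod_natCard]
    change ω ^ ((k : ZMod (Nat.card Z))).val ∈ T
    rw [h1]
    exact hT k hk
  · intro a _ b _ hab
    have h1 : ω (z ^ a.val) = ω (z ^ b.val) := by
      have h2 := congrArg (fun f : Z →* ℂˣ => f z) hab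
      simpa [map_pow] using h2
    have h2 := hω h1
    have key : ∀ x y : ℕ, z ^ x = z ^ y → x % Nat.card Z = y % Nat.card Z := by
      intro x y h
      rw [← hord]
      exact pow_eq_pow_iff_modEq.mp h
    have h4 : a.val = b.val := by
      have h5 := ZMod.val_lt a
      have h6 := ZMod.val_lt b
      have h7 := key _ _ h2
      rwa [Nat.mod_eq_of_lt h5, Nat.mod_eq_of_lt h6] at h7
    exact ZMod.val_injective _ h4
  · exact T.finite_toSet

/-- the part above a faithful central character vanishes when the degree is small -/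
lemma lam_zero_of {S : Set ℕ} {r D a : ℕ} (hS : ∀ k ∈ S, k.Coprime (Nat.card G))
    {F : Subgroup G} (hF : Frame G F D)
    (hr : r < D * Set.ncard ((fun k : ℕ => (k : ZMod (Nat.card (Subgroup.center G)))) '' S))
    (hθ : IsHeilbronn θ) (ha : θ 1 = a) (har : a ≤ r) (hs : Supp S θ)
    (ω : Subgroup.center G →* ℂˣ) (hω : Function.Injective ω) :
    lam (Subgroup.center G) ω θ 1 = 0 := by
  classical
  by_contra h0
  have hfin : Finite (Subgroup.center G →* ℂˣ) := finite_hom _
  have : Fintype (Subgroup.center G →* ℂˣ) := Fintype.ofFinite _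
  choose n hn0 hn using fun μ : Subgroup.center G →* ℂˣ =>
    lam_one_le (μ := μ) (Z := Subgroup.center G) le_rfl hθ ha
  have hsum : ∑ μ, n μ = a := by
    have h1 := sum_part (Subgroup.center G) (f := θ) (by
      intro g k hk
      have h2 : ⁅Subgroup.center G, Subgroup.center G⁆ = ⊥ := by
        rw [Subgroup.commutator_eq_bot_iff_le_centralizer]
        intro x hx
        rw [Subgroup.mem_centralizer_iff]
        intro y _
        exact Subgroup.mem_center_iff.mp hx y
      rw [h2, Subgroup.mem_bot] at hk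
      rw [hk, mul_one]) 1
    have h3 : ∀ μ : Subgroup.center G →* ℂˣ, part (Subgroup.center G) μ θ 1 = n μ := fun μ => hn μ
    rw [Finset.sum_congr rfl (fun μ _ => h3 μ), ha] at h1
    exact_mod_cast h1
  let T : Finset (Subgroup.center G →* ℂˣ) := Finset.univ.filter fun ν => ∃ k ∈ S, ν = ω ^ k
  have hT : Set.ncard ((fun k : ℕ => (k : ZMod (Nat.card (Subgroup.center G)))) '' S) ≤ T.card :=
    ncard_powers hF.cyc ω hω S T (fun k hk => by
      rw [Finset.mem_filter]
      exact ⟨Finset.mem_univ _, k, hk, rfl⟩)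
  have hD : ∀ ν ∈ T, D ≤ n ν := by
    intro ν hν
    obtain ⟨-, k, hk, rfl⟩ := Finset.mem_filter.mp hν
    have hinj : Function.Injective (ω ^ k) := by
      have hcop : (Nat.card (Subgroup.center G)).Coprime k :=
        (Nat.Coprime.coprime_dvd_right (Subgroup.card_subgroup_dvd_card _) (hS k hk)).symm
      intro x y hxy
      rw [MonoidHom.pow_apply, MonoidHom.pow_apply, ← map_pow, ← map_pow] at hxy
      exact (powCoprime hcop).injective (hω hxy)
    obtain ⟨m, hm⟩ := dvd_lam hF hθ (ω ^ k) hinj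
    have hne : n (ω ^ k) ≠ 0 := by
      have h1 : pr θ (ind (Subgroup.center G) (lc ω)) ≠ 0 := by
        rw [pr_lin_lam hθ.conj]
        exact h0
      have h2 := hs k hk _ ω h1
      rw [pr_lin_lam hθ.conj, hn] at h2
      exact_mod_cast h2
    rw [hn] at hm
    have h3 : n (ω ^ k) = m * D := by exact_mod_cast hm
    rw [h3] at hne ⊢
    have h4 : m ≠ 0 := by
      rintro rfl
      simp at hne
    exact Nat.le_mul_of_pos_left D (Nat.pos_of_ne_zero h4)
  have h1 : T.card * D ≤ ∑ ν ∈ T, n ν := by
    have := Finset.card_nsmul_le_sum T n D hD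
    simpa using this
  have h2 : ∑ ν ∈ T, n ν ≤ a := by
    rw [← hsum]
    exact Finset.sum_le_sum_of_subset (Finset.subset_univ _)
  have h3 : D * Set.ncard ((fun k : ℕ => (k : ZMod (Nat.card (Subgroup.center G)))) '' S)
      ≤ T.card * D := by
    rw [mul_comm]
    exact Nat.mul_le_mul_right D hT
  omega

/-- **The induction.** If the sections of the solvable group `G` have no small frames, then every
irreducible character of `G` is a sum of monomial characters plus an integral combination of
monomial characters orthogonal to `θ`. -/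
theorem dec (S : Set ℕ) (r : ℕ) : ∀ (N : ℕ) (G : Type) [Group G] [Finite G], Nat.card G = N →
    Group.IsSolvable G → (∀ k ∈ S, k.Coprime (Nat.card G)) → NF S r G → ∀ θ : G → ℂ,
    IsHeilbronn θ → Virt θ → (∃ a : ℕ, a ≤ r ∧ θ 1 = a) → Supp S θ → ∀ χ ∈ Irr G, χ ∈ MG θ := by
  classical
  intro N
  induction N using Nat.strong_induction_on with
  | _ N ih =>
  intro G _ _ hN hsol hS hnf θ hθ hvirt hdeg hsupp χ hχ
  have : Fintype G := Fintype.ofFinite G
  have hχ0 := hχ
  obtain ⟨m, ρ, hρ, rfl⟩ := exists_rep hχ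
  obtain ⟨s, hsr, hs⟩ := hdeg
  -- the kernel
  by_cases hfaith : ∀ g, ρ g = 1 → g = 1
  swap
  · push Not at hfaith
    obtain ⟨g, hg, hg1⟩ := hfaith
    let Nk : Subgroup G := MonoidHom.ker ρ
    let π : G →* G ⧸ Nk := QuotientGroup.mk' Nk
    have hπ : Function.Surjective π := QuotientGroup.mk'_surjective Nk
    have hker : π.ker = Nk := QuotientGroup.ker_mk' Nk
    obtain ⟨ψ, hψ, h1⟩ := descend_irr hπ hρ (by
      intro x hx
      rw [hker] at hx
      exact hx)
    have hcard : Nat.card (G ⧸ Nk) < N := by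
      rw [← hN, Subgroup.card_eq_card_quotient_mul_card_subgroup Nk]
      have h2 : 1 < Nat.card Nk := by
        have : Nontrivial Nk := ⟨⟨g, hg⟩, 1, fun h => hg1 (congrArg Subtype.val h)⟩
        exact Finite.one_lt_card
      have h3 : 0 < Nat.card (G ⧸ Nk) := Nat.card_pos
      nlinarith
    have h2 := ih _ hcard (G ⧸ Nk) rfl inferInstance
      (fun k hk => Nat.Coprime.coprime_dvd_right Nk.card_quotient_dvd_card (hS k hk))
      (hnf.quot π hπ) (push π θ)
      (push_isHeilbronn hπ hθ) (Virt.push hπ hvirt) (by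
        obtain ⟨r', h2, h3⟩ := push_one_nat_le hπ hθ hs
        exact ⟨r', h2.trans hsr, h3⟩) (hsupp.push hπ) ψ hψ
    have h3 : ρ.character = fun g => ψ (π g) := funext h1
    rw [h3]
    exact mg_infl hπ h2
  -- Clifford
  by_cases hab : ∀ A : Subgroup G, A.Normal → (∀ a ∈ A, ∀ b ∈ A, a * b = b * a) →
      A ≤ Subgroup.center G
  swap
  · push Not at hab
    obtain ⟨A, hAn, hAc, hA⟩ := hab
    obtain ⟨H, hH, ψ, hψ, h1⟩ := clifford_char hρ hfaith A
      (fun a b => Subtype.ext (hAc a a.2 b b.2)) hA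
    have hcard : Nat.card H < N := by
      rw [← hN]
      refine lt_of_le_of_ne (Subgroup.card_le_card_group H) fun h2 => hH ?_
      exact Subgroup.eq_top_of_card_eq H h2
    have h2 := ih _ hcard H rfl inferInstance
      (fun k hk => Nat.Coprime.coprime_dvd_right H.card_subgroup_dvd_card (hS k hk))
      (hnf.sub H) (fun x => θ x)
      (hθ.comp H.subtype) (hvirt.comp H.subtype) ⟨s, hsr, by simpa using hs⟩
      (hsupp.res hθ.conj H) ψ hψ
    rw [h1]
    exact mg_ind hθ.conj H h2
  -- all abelian normal subgroups are central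
  by_cases hZ : Subgroup.center G = ⊤
  · refine mono_mg (mono_abelian (fun a b => ?_) hχ0)
    have h1 : b ∈ Subgroup.center G := by rw [hZ]; exact Subgroup.mem_top b
    exact Subgroup.mem_center_iff.mp h1 a
  obtain ⟨ω, hω⟩ := hρ.central
  have hωi : Function.Injective ω := by
    rw [injective_iff_map_eq_one]
    intro z hz
    apply Subtype.ext
    apply hfaith
    refine LinearMap.ext fun v => ?_
    rw [hω z v, hz, Units.val_one, one_smul, Module.End.one_apply]
  have hχω : ∀ (g : G) (z : Subgroup.center G),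
      ρ.character (g * z) = ρ.character g * ((ω z : ℂˣ) : ℂ) := by
    intro g z
    have h1 : ρ (g * z) = ((ω z : ℂˣ) : ℂ) • ρ g := by
      refine LinearMap.ext fun v => ?_
      rw [map_mul, Module.End.mul_apply, hω, map_smul, LinearMap.smul_apply]
    change LinearMap.trace ℂ _ (ρ (g * z)) = LinearMap.trace ℂ _ (ρ g) * _
    rw [h1, map_smul, smul_eq_mul, mul_comm]
  obtain ⟨E, D, hE⟩ := exists_frame hab ω hωi hZ
  have h0 := lam_zero_of hS hE (hnf.self hE) hθ hs hsr hsupp ω hωi
  have hμ : ∀ (g : G) (n : Subgroup.center G), ω (MulAut.conjNormal g n) = ω n := by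
    intro g n
    congr 1
    apply Subtype.ext
    rw [MulAut.conjNormal_apply, Subgroup.mem_center_iff.mp n.2 g, mul_inv_cancel_right]
  have h1 := (heil_ha hθ).part_zero hμ (show part (Subgroup.center G) ω θ 1 = 0 from h0)
  exact good_mg (goodA_zero hθ.conj hμ h1 (AddSubgroup.subset_closure hχ0) hχω)

end Pool.Agent.U803.DT
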