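import Mathlib
import Pool.Agent.U803.DT.Ind
import Pool.Agent.R389.Grow

/-!
# Deligne's conjecture for the Artin twists in solvable extensions without small frames
-/

set_option autoImplicit false
set_option linter.unusedSectionVars false

namespace Pool.Agent.U803.DT

open Pool.Agent.H302R2 Pool.Agent.H302R3 Pool.Agent.H302R5 Pool.Agent.H302R6
open Pool.Agent.H541R3.ART Pool.Agent.W446.AS Pool.Agent.R389 Filter Topology

variable {G : Type} [Group G] [Finite G] {E : Type} [Field E]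
  {L : (E →+* ℂ) → (G → ℂ) → ℂ → ℂ} {P : (E →+* ℂ) → (G → ℂ) → ℂ} {c : ℂ}

/-- the conjecture for the characters which are sums of monomial characters and differences of
monomial characters with nonvanishing L-value -/
theorem deligne_of_mg {ζ : E} (hζ : IsPrimitiveRoot ζ (Monoid.exponent G))
    (hL : ∀ τ, ∀ χ ∈ Irr G, MeromorphicAt (L τ χ) c ∧ meromorphicOrderAt (L τ χ) c ≠ ⊤)
    (hP : ∀ τ, ∀ χ ∈ Irr G, P τ χ ≠ 0)
    (hmon : ∀ (U : Subgroup G) (ψ : U →* Eˣ),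
      Deligne L P c (ind U (fun u => ((ψ u : Eˣ) : E)))) (τ₀ : E →+* ℂ) {f : G → E}
    (h : (fun g => τ₀ (f g)) ∈ MG (theta (ords (L τ₀) c) : G → ℂ)) : Deligne L P c f := by
  obtain ⟨a, ha, s, hs, has⟩ := AddSubmonoid.mem_sup.mp h
  obtain ⟨fa, ea, ha1, ha2⟩ := monA_del hζ hL hP hmon τ₀ ha
  obtain ⟨fs, es, hs1, -, hs2⟩ := goodA_unit hζ hL hP hmon τ₀ hs
  have h2 : f = fa + fs := by
    funext g
    apply τ₀.injective
    rw [Pi.add_apply, map_add, ha1, hs1]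
    exact (congrFun has g).symm
  rw [h2]
  exact (ha2.add hL hP hs2).deligne

/-- the degree of `theta` is the order over the top field -/
lemma exists_deg {ζ : E} (hζ : IsPrimitiveRoot ζ (Monoid.exponent G))
    (hL : ∀ τ, ∀ χ ∈ Irr G, MeromorphicAt (L τ χ) c ∧ meromorphicOrderAt (L τ χ) c ≠ ⊤)
    (hmon : ∀ (U : Subgroup G) (ψ : U →* Eˣ),
      Deligne L P c (ind U (fun u => ((ψ u : Eˣ) : E)))) (τ₀ : E →+* ℂ)
    {deg : (G → ℂ) → ℕ} (hdeg : ∀ χ ∈ Irr G, χ 1 = deg χ) :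
    ∃ a : ℕ, (theta (ords (L τ₀) c) : G → ℂ) 1 = a ∧
      meromorphicOrderAt (fun s => ∏ᶠ χ ∈ Irr G, L τ₀ χ s ^ deg χ) c = ((a : ℤ) : WithTop ℤ) := by
  have hθ := heil_ords hζ hL hmon τ₀
  obtain ⟨a, ha⟩ := hθ.exists_deg
  refine ⟨a, ha, ?_⟩
  have hone := theta_one_eq (c := c) (l := L τ₀) hdeg
  have htop := top_order (hL τ₀) deg
  have ha' : (∑ χ ∈ irrF G, (deg χ : ℤ) * ords (L τ₀) c χ) = (a : ℤ) := by
    rw [ha] at hone
    exact_mod_cast hone.symm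
  rw [htop, ha']

/-- **Solvable extensions without small frames.** -/
theorem main_frames {ζ : E} (hζ : IsPrimitiveRoot ζ (Monoid.exponent G))
    (hL : ∀ τ, ∀ χ ∈ Irr G, MeromorphicAt (L τ χ) c ∧ meromorphicOrderAt (L τ χ) c ≠ ⊤)
    (hP : ∀ τ, ∀ χ ∈ Irr G, P τ χ ≠ 0)
    (hmon : ∀ (U : Subgroup G) (ψ : U →* Eˣ),
      Deligne L P c (ind U (fun u => ((ψ u : Eˣ) : E)))) (τ₀ : E →+* ℂ)
    {deg : (G → ℂ) → ℕ} (hdeg : ∀ χ ∈ Irr G, χ 1 = deg χ)
    (K : Subgroup G) [hK : K.Normal] (hQ : Group.IsSolvable (G ⧸ K)) {S : Set ℕ} {r : ℕ}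
    (hS : ∀ k ∈ S, k.Coprime (Nat.card (G ⧸ K))) (hnf : NF S r (G ⧸ K))
    (hsupp : Supp S (theta (ords (L τ₀) c) : G → ℂ))
    (hr : meromorphicOrderAt (fun s => ∏ᶠ χ ∈ Irr G, L τ₀ χ s ^ deg χ) c ≤ (r : ℤ))
    (hz : meromorphicOrderAt (fun s => ∏ᶠ χ ∈ Irr G, L τ₀ χ s ^ deg χ) c ≤
      meromorphicOrderAt (fun s => ∏ᶠ χ ∈ {χ ∈ Irr G | ∀ k ∈ K, χ k = χ 1},
        L τ₀ χ s ^ deg χ) c)
    {V : Type} [AddCommGroup V] [Module E V] [FiniteDimensional E V] (ρ : Representation E G V) :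
    Deligne L P c ρ.character := by
  classical
  have : Fintype G := Fintype.ofFinite G
  have hθ := heil_ords hζ hL hmon τ₀
  obtain ⟨a, ha, hord⟩ := exists_deg hζ hL hmon τ₀ hdeg
  have har : a ≤ r := by
    rw [hord] at hr
    exact_mod_cast hr
  refine main_grow hζ hL hP (fun U ψ _ => hmon U ψ) τ₀ hdeg K 1 ?_ ?_ ρ
  · intro W _ _ _ σ hσ
    let π : G →* G ⧸ K := QuotientGroup.mk' K
    have hπ : Function.Surjective π := QuotientGroup.mk'_surjective K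
    let σ' : Representation E (G ⧸ K) W := QuotientGroup.lift K σ (by
      intro k hk
      rw [MonoidHom.mem_ker]
      refine LinearMap.ext fun w => ?_
      rw [hσ k hk w]
      simp)
    have hσ' : ∀ g, σ.character g = σ'.character (π g) := fun g => rfl
    have h1 : (fun y => τ₀ (σ'.character y)) ∈ AddSubmonoid.closure (Irr (G ⧸ K)) :=
      base_change τ₀ σ'
    have h2 : AddSubmonoid.closure (Irr (G ⧸ K)) ≤
        MG (push π (theta (ords (L τ₀) c) : G → ℂ)) := by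
      rw [AddSubmonoid.closure_le]
      intro ψ hψ
      exact dec S r _ (G ⧸ K) rfl hQ hS hnf _ (push_isHeilbronn hπ hθ)
        (Virt.push hπ (theta_virt _)) (by
          obtain ⟨r', h2, h3⟩ := push_one_nat_le hπ hθ ha
          exact ⟨r', h2.trans har, h3⟩) (hsupp.push hπ) ψ hψ
    have h3 := mg_infl hπ (h2 h1)
    exact deligne_of_mg hζ hL hP hmon τ₀ h3
  · simpa using hz

end Pool.Agent.U803.DT
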