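import Mathlib
import Pool.Agent.U803.DT.Main
import Pool.Agent.U803.DT.Num2

/-!
# Rational coefficients: the support of the orders is stable under the Galois group
-/

set_option autoImplicit false
set_option linter.unusedSectionVars false

namespace Pool.Agent.U803.DT

open Pool.Agent.H302R2 Pool.Agent.H302R3 Pool.Agent.H302R5 Pool.Agent.H302R6
open Pool.Agent.H541R3.ART Pool.Agent.W446.AS Pool.Agent.R389 Filter Topology

/-- the embeddings of a number field with prescribed image of a root of unity -/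
lemma exists_embedding {E : Type} [Field E] [NumberField E] {n : ℕ} (hn : 0 < n) {ζ : E}
    (hζ : IsPrimitiveRoot ζ n) (τ₀ : E →+* ℂ) {k : ℕ} (hk : k.Coprime n) :
    ∃ τ : E →+* ℂ, τ ζ = τ₀ ζ ^ k := by
  have h1 := NumberField.Embeddings.range_eval_eq_rootSet_minpoly E ℂ ζ
  have h2 : IsPrimitiveRoot (τ₀ ζ ^ k) n := (hζ.map_of_injective τ₀.injective).pow_of_coprime k hk
  have h3 : τ₀ ζ ^ k ∈ (minpoly ℚ ζ).rootSet ℂ := by
    rw [← Polynomial.cyclotomic_eq_minpoly_rat hζ hn, Polynomial.mem_rootSet]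
    refine ⟨Polynomial.cyclotomic_ne_zero n ℚ, ?_⟩
    have h4 := h2.isRoot_cyclotomic hn
    rw [Polynomial.aeval_def, Polynomial.eval₂_eq_eval_map, Polynomial.map_cyclotomic]
    exact h4
  rw [← h1] at h3
  obtain ⟨τ, hτ⟩ := h3
  exact ⟨τ, hτ⟩

variable {G : Type} [Group G] [Finite G] {E : Type} [Field E]
  {ℓ : (G → ℂ) → ℂ → ℂ} {P : (E →+* ℂ) → (G → ℂ) → ℂ} {c : ℂ}

/-- the support of the orders is stable under the Galois group -/
lemma supp_rat [NumberField E] {ζ : E} (hζ : IsPrimitiveRoot ζ (Monoid.exponent G))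
    (hL : ∀ χ ∈ Irr G, MeromorphicAt (ℓ χ) c ∧ meromorphicOrderAt (ℓ χ) c ≠ ⊤)
    (hP : ∀ τ, ∀ χ ∈ Irr G, P τ χ ≠ 0)
    (hmon : ∀ (U : Subgroup G) (ψ : U →* Eˣ),
      Deligne (fun _ => ℓ) P c (ind U (fun u => ((ψ u : Eˣ) : E)))) (τ₀ : E →+* ℂ) {N : ℕ}
    (hN : Nat.card G ∣ N) :
    Supp {k | k.Coprime N} (theta (ords ℓ c) : G → ℂ) := by
  classical
  intro k hk U ψ hψ
  have hexp : 0 < Monoid.exponent G := Monoid.ExponentExists.of_finite.exponent_pos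
  have hk' : k.Coprime (Monoid.exponent G) :=
    Nat.Coprime.coprime_dvd_right (Group.exponent_dvd_nat_card.trans hN) hk
  obtain ⟨τ, hτ⟩ := exists_embedding hexp hζ τ₀ hk'
  obtain ⟨ψE, hψE⟩ := lift_char hζ τ₀ U ψ
  obtain ⟨e, he⟩ := delZ_ind (hmon U ψE)
  have h1 : ∀ u : U, τ ((ψE u : Eˣ) : E) = (((ψ ^ k) u : ℂˣ) : ℂ) := by
    intro u
    have h2 : ((ψE u : Eˣ) : E) ^ (Monoid.exponent G) = 1 := by
      rw [← Units.val_pow_eq_pow_val, ← map_pow]
      have h3 : u ^ Monoid.exponent G = 1 := by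
        apply Subtype.ext
        rw [Subgroup.coe_pow, Subgroup.coe_one]
        exact Monoid.pow_exponent_eq_one (u : G)
      rw [h3, map_one, Units.val_one]
    have hne : NeZero (Monoid.exponent G) := ⟨hexp.ne'⟩
    obtain ⟨i, -, hi⟩ := hζ.eq_pow_of_pow_eq_one h2
    rw [← hi, map_pow, hτ, ← pow_mul, mul_comm k i, pow_mul, ← map_pow, hi, hψE,
      MonoidHom.pow_apply, Units.val_pow_eq_pow_val]
  intro h0
  apply hψ
  rw [unit_iff hL hP he τ₀ hψE]
  exact (unit_iff hL hP he τ h1).mp h0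

/-- the orders over the top field as a natural number -/
lemma totient_le_ncard {n N : ℕ} (hN : N ≠ 0) (h : n ∣ N) :
    n.totient ≤ Set.ncard ((fun k : ℕ => (k : ZMod n)) '' {k | k.Coprime N}) := by
  classical
  have hn0 : n ≠ 0 := by
    rintro rfl
    exact hN (Nat.eq_zero_of_zero_dvd h)
  have : NeZero n := ⟨hn0⟩
  have : NeZero N := ⟨hN⟩
  have h1 : Set.range (fun u : (ZMod n)ˣ => (u : ZMod n)) ⊆
      (fun k : ℕ => (k : ZMod n)) '' {k | k.Coprime N} := by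
    rintro _ ⟨u, rfl⟩
    obtain ⟨v, hv⟩ := ZMod.unitsMap_surjective h u
    refine ⟨(v : ZMod N).val, ZMod.val_coe_unit_coprime v, ?_⟩
    rw [← hv]
    change (((v : ZMod N).val : ℕ) : ZMod n) = _
    rw [ZMod.unitsMap_def]
    change _ = ZMod.castHom h (ZMod n) (v : ZMod N)
    rw [ZMod.castHom_apply, ZMod.natCast_val]
  have h2 : Set.ncard (Set.range (fun u : (ZMod n)ˣ => (u : ZMod n))) = n.totient := by
    rw [← Set.image_univ, Set.ncard_image_of_injective _ Units.val_injective, Set.ncard_univ,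
      Nat.card_eq_fintype_card, ZMod.card_units_eq_totient]
  rw [← h2]
  exact Set.ncard_le_ncard h1 (Set.toFinite _)

/-- frames weighted by the number of the conjugates of the central character -/
lemma nf_totient {Q : Type} [Group Q] [Finite Q] {N r : ℕ} (hN : N ≠ 0) (hQ : Nat.card Q ∣ N)
    (h : ∀ (H : Subgroup Q) (X : Type) [Group X] (f : H →* X), Function.Surjective f →
      ∀ (F : Subgroup X) (d : ℕ), Frame X F d →
        r < d * (Nat.card (Subgroup.center X)).totient) : NF {k | k.Coprime N} r Q := by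
  intro H X _ f hf F d hF
  have hXf : Finite X := Finite.of_surjective f hf
  have h1 : Nat.card (Subgroup.center X) ∣ N :=
    (Subgroup.card_subgroup_dvd_card _).trans
      (((Subgroup.card_dvd_of_surjective f hf).trans (Subgroup.card_subgroup_dvd_card H)).trans hQ)
  exact (h H X f hf F d hF).trans_le (Nat.mul_le_mul_left d (totient_le_ncard hN h1))

/-- base change of a representation -/
noncomputable def bc (E : Type) [Field E] [Algebra ℚ E] {V : Type} [AddCommGroup V] [Module ℚ V]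
    (ρ : Representation ℚ G V) : Representation E G (TensorProduct ℚ E V) where
  toFun g := (ρ g).baseChange E
  map_one' := by
    rw [map_one]
    exact LinearMap.baseChange_id
  map_mul' g h := by
    rw [map_mul]
    exact LinearMap.baseChange_comp _ _

lemma bc_char (E : Type) [Field E] [Algebra ℚ E] {V : Type} [AddCommGroup V] [Module ℚ V]
    [FiniteDimensional ℚ V] (ρ : Representation ℚ G V) (g : G) :
    (bc E ρ).character g = algebraMap ℚ E (ρ.character g) := by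
  change LinearMap.trace E _ ((ρ g).baseChange E) = _
  rw [LinearMap.trace_baseChange]
  rfl

/-- **Rational coefficients.** -/
theorem main_frames_rat [NumberField E] {ζ : E} (hζ : IsPrimitiveRoot ζ (Monoid.exponent G))
    (hL : ∀ χ ∈ Irr G, MeromorphicAt (ℓ χ) c ∧ meromorphicOrderAt (ℓ χ) c ≠ ⊤)
    (hP : ∀ τ, ∀ χ ∈ Irr G, P τ χ ≠ 0)
    (hmon : ∀ (U : Subgroup G) (ψ : U →* Eˣ),
      Deligne (fun _ => ℓ) P c (ind U (fun u => ((ψ u : Eˣ) : E))))
    {deg : (G → ℂ) → ℕ} (hdeg : ∀ χ ∈ Irr G, χ 1 = deg χ)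
    (K : Subgroup G) [hK : K.Normal] (hQ : Group.IsSolvable (G ⧸ K)) {r : ℕ}
    (hnf : NF {k | k.Coprime (Nat.card G)} r (G ⧸ K))
    (hr : meromorphicOrderAt (fun s => ∏ᶠ χ ∈ Irr G, ℓ χ s ^ deg χ) c ≤ (r : ℤ))
    (hz : meromorphicOrderAt (fun s => ∏ᶠ χ ∈ Irr G, ℓ χ s ^ deg χ) c ≤
      meromorphicOrderAt (fun s => ∏ᶠ χ ∈ {χ ∈ Irr G | ∀ k ∈ K, χ k = χ 1},
        ℓ χ s ^ deg χ) c)
    {V : Type} [AddCommGroup V] [Module E V] [FiniteDimensional E V] (ρ : Representation E G V) :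
    Deligne (fun _ => ℓ) P c ρ.character := by
  obtain ⟨τ₀⟩ : Nonempty (E →+* ℂ) := inferInstance
  have hL' : ∀ τ : E →+* ℂ, ∀ χ ∈ Irr G, MeromorphicAt ((fun _ : E →+* ℂ => ℓ) τ χ) c ∧
      meromorphicOrderAt ((fun _ : E →+* ℂ => ℓ) τ χ) c ≠ ⊤ := fun _ => hL
  have hsupp := supp_rat hζ hL hP hmon τ₀ (N := Nat.card G) dvd_rfl
  exact main_frames hζ hL' hP hmon τ₀ hdeg K hQ
    (fun k hk => Nat.Coprime.coprime_dvd_right K.card_quotient_dvd_card hk) hnf hsupp hr hz ρ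

/-- **The rational form.** -/
theorem main_frames_rat' [NumberField E] {ζ : E} (hζ : IsPrimitiveRoot ζ (Monoid.exponent G))
    (hL : ∀ χ ∈ Irr G, MeromorphicAt (ℓ χ) c ∧ meromorphicOrderAt (ℓ χ) c ≠ ⊤)
    (hP : ∀ τ, ∀ χ ∈ Irr G, P τ χ ≠ 0)
    (hmon : ∀ (U : Subgroup G) (ψ : U →* Eˣ),
      Deligne (fun _ => ℓ) P c (ind U (fun u => ((ψ u : Eˣ) : E))))
    {deg : (G → ℂ) → ℕ} (hdeg : ∀ χ ∈ Irr G, χ 1 = deg χ)
    (K : Subgroup G) [hK : K.Normal] (hQ : Group.IsSolvable (G ⧸ K)) {r : ℕ}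
    (hnf : NF {k | k.Coprime (Nat.card G)} r (G ⧸ K))
    (hr : meromorphicOrderAt (fun s => ∏ᶠ χ ∈ Irr G, ℓ χ s ^ deg χ) c ≤ (r : ℤ))
    (hz : meromorphicOrderAt (fun s => ∏ᶠ χ ∈ Irr G, ℓ χ s ^ deg χ) c ≤
      meromorphicOrderAt (fun s => ∏ᶠ χ ∈ {χ ∈ Irr G | ∀ k ∈ K, χ k = χ 1},
        ℓ χ s ^ deg χ) c)
    {V : Type} [AddCommGroup V] [Module ℚ V] [FiniteDimensional ℚ V] (ρ : Representation ℚ G V)
    {m : (G → ℂ) → ℕ} (hm : IsDecomp (fun g => ((ρ.character g : ℚ) : ℂ)) m)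
    {Ω : ℂ} {u : E} (hΩ : ∀ τ : E →+* ℂ, ∏ᶠ χ ∈ Irr G, P τ χ ^ m χ = τ u * Ω) :
    ∃ q : ℚ, Tendsto (fun s => ∏ᶠ χ ∈ Irr G, ℓ χ s ^ m χ) (𝓝[≠] c) (𝓝 (q * Ω)) := by
  classical
  obtain ⟨τ₀⟩ : Nonempty (E →+* ℂ) := inferInstance
  have hF : ∀ τ : E →+* ℂ, (fun g => τ ((bc E ρ).character g))
      = fun g => ((ρ.character g : ℚ) : ℂ) := by
    intro τ
    funext g
    rw [bc_char, eq_ratCast, map_ratCast]
  obtain ⟨e, he⟩ := main_frames_rat hζ hL hP hmon hdeg K hQ hnf hr hz (bc E ρ)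
  have h1 : ∀ τ : E →+* ℂ, Tendsto (fun s => ∏ᶠ χ ∈ Irr G, ℓ χ s ^ m χ) (𝓝[≠] c)
      (𝓝 (τ (e * u) * Ω)) := by
    intro τ
    have h2 := he τ m (by rw [hF]; exact hm)
    rw [hΩ, ← mul_assoc, ← map_mul] at h2
    exact h2
  have hΩ0 : Ω ≠ 0 := by
    intro h0
    have h2 := hΩ τ₀
    rw [h0, mul_zero, finprod_irr (fun χ => P τ₀ χ ^ m χ)] at h2
    exact Finset.prod_ne_zero_iff.mpr (fun χ hχ => pow_ne_zero _ (hP τ₀ χ (mem_irrF.mp hχ))) h2
  obtain ⟨q, hq⟩ := rat_of_embeddings (e * u) (τ₀ (e * u)) (fun τ => by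
    have h2 := tendsto_nhds_unique (h1 τ) (h1 τ₀)
    exact mul_right_cancel₀ hΩ0 h2)
  refine ⟨q, ?_⟩
  have h2 := h1 τ₀
  rw [← hq, eq_ratCast, map_ratCast] at h2
  exact h2

end Pool.Agent.U803.DT
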